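import Pool.Agent.Lib.MP_ca0fc2_an.TB.F3
import Pool.Agent.Lib.MP_ca0fc2_an.Koszul

/-! Ideals of bounded holomorphic functions: local corona data near boundary points, in a robust form. -/

set_option autoImplicit false

open Metric Set Filter Topology

namespace Pool.Agent.MPca0fc2.WI

open Pool.Agent.Lib.MP_ca0fc2_an (SupportData)
open Pool.Agent.MPca0fc2.TB

variable {n N : ℕ}

/-- For all radii `r` there are data `g` on `D` with `δ ≤ |g| ≤ 1`, which are nearly constant away from the ball with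
the centre `q` and the radius `r`, such that no function near `g` has a solution with the bound `A / 2` in this ball. The constant
value `c` is not nearly parallel to the vector number `i₀` of the standard basis. -/
def LocDat (D : Set (En n)) (i₀ : Fin N) (δ A : ℝ) (q : En n) : Prop :=
  ∀ r > 0, ∀ η > 0, ∃ (g : En n → En N) (c : En N), DifferentiableOn ℂ g D ∧
    ContinuousOn g (closure D) ∧ (∀ z ∈ closure D, δ ≤ ‖g z‖ ∧ ‖g z‖ ≤ 1) ∧ δ ≤ ‖c‖ ∧ ‖c‖ ≤ 1 ∧
    2 * ‖c i₀‖ ^ 2 ≤ ‖c‖ ^ 2 ∧ (∀ z ∈ closure D, z ∉ ball q r → ‖g z - c‖ ≤ η) ∧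
    ∀ (F : En n → En N) (M τ : ℝ), 0 ≤ M → 2 * M ≤ A → τ * M ≤ 1 / 2 →
      (∀ z ∈ D, z ∈ ball q r → ‖F z - g z‖ ≤ τ) → ¬ Solv F (D ∩ ball q r) M

/-- Permutation of the coordinates. -/
noncomputable def perm (σ : Equiv.Perm (Fin N)) : En N ≃ₗᵢ[ℂ] En N :=
  LinearIsometryEquiv.piLpCongrLeft 2 ℂ ℂ σ

theorem perm_apply (σ : Equiv.Perm (Fin N)) (x : En N) (i : Fin N) : perm σ x i = x (σ.symm i) := by
  simp [perm, LinearIsometryEquiv.piLpCongrLeft_apply]

theorem perm_differentiable (σ : Equiv.Perm (Fin N)) : Differentiable ℂ (perm σ : En N → En N) :=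
  (perm σ).toContinuousLinearEquiv.toContinuousLinearMap.differentiable

theorem solv_perm {σ : Equiv.Perm (Fin N)} {F : En n → En N} {D : Set (En n)} {A : ℝ}
    (h : Solv F D A) : Solv (fun z => perm σ (F z)) D A := by
  obtain ⟨H, h1, h2, h3⟩ := h
  refine ⟨fun z => perm σ (H z), ?_, fun z hz => ?_, fun z hz => ?_⟩
  · exact (perm_differentiable σ).comp_differentiableOn h1
  · rw [LinearIsometryEquiv.norm_map]
    exact h2 z hz
  · rw [← h3 z hz]
    refine (Fintype.sum_equiv σ _ _ fun i => ?_).symm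
    rw [perm_apply, perm_apply, Equiv.symm_apply_apply]

/-- Data on the ball without small solutions give local data at every boundary point. -/
theorem locDat_of {D U : Set (En n)} {ρ : En n → ℝ} {h : En n → En n → Fin n → ℂ} {c : ℝ}
    (hs : SupportData D U ρ h c) {q : En n} (hq : q ∈ frontier D) {i₀ i₁ : Fin N} (hi : i₀ ≠ i₁)
    {δ A : ℝ} (hball : ∃ f : En n → En N, DifferentiableOn ℂ f (ball 0 1) ∧
      (∀ z ∈ ball (0 : En n) 1, δ ≤ ‖f z‖ ∧ ‖f z‖ ≤ 1) ∧ ¬ Solv f (ball 0 1) A) :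
    LocDat D i₀ δ A q := by
  intro r hr η hη
  obtain ⟨f, hf, hfb, hfn⟩ := hball
  obtain ⟨e, hT⟩ := trans_of_support hs hq
  obtain ⟨g, d, hg, hgc, hgb, hd1, hd2, hoff, hrob⟩ := step_loc hT hf hfb hfn hη hr
  have hgb' : ∀ z ∈ closure D, δ ≤ ‖g z‖ ∧ ‖g z‖ ≤ 1 := by
    intro z hz
    have h1 : g '' closure D ⊆ closure (g '' D) := hgc.image_closure
    have h2 : closure (g '' D) ⊆ {y | δ ≤ ‖y‖ ∧ ‖y‖ ≤ 1} := by
      refine closure_minimal ?_ ?_
      · rintro _ ⟨x, hx, rfl⟩
        exact hgb x hx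
      · exact (isClosed_le continuous_const continuous_norm).inter
          (isClosed_le continuous_norm continuous_const)
    exact h2 (h1 ⟨z, hz, rfl⟩)
  have hsum : ‖d i₀‖ ^ 2 + ‖d i₁‖ ^ 2 ≤ ‖d‖ ^ 2 := by
    rw [EuclideanSpace.norm_sq_eq]
    calc ‖d i₀‖ ^ 2 + ‖d i₁‖ ^ 2 = ∑ i ∈ ({i₀, i₁} : Finset (Fin N)), ‖d i‖ ^ 2 := by
          rw [Finset.sum_pair hi]
      _ ≤ _ := Finset.sum_le_sum_of_subset_of_nonneg (Finset.subset_univ _) fun i _ _ => by positivity
  by_cases hc : 2 * ‖d i₀‖ ^ 2 ≤ ‖d‖ ^ 2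
  · exact ⟨g, d, hg, hgc, hgb', hd1, hd2, hc, hoff, hrob⟩
  · push Not at hc
    set σ : Equiv.Perm (Fin N) := Equiv.swap i₀ i₁ with hσ
    refine ⟨fun z => perm σ (g z), perm σ d, ?_, ?_, fun z hz => ?_, ?_, ?_, ?_, fun z hz hzb => ?_,
      fun F M τ hM hMA hτ hF hS => ?_⟩
    · exact (perm_differentiable σ).comp_differentiableOn hg
    · exact (perm_differentiable σ).continuous.comp_continuousOn hgc
    · rw [LinearIsometryEquiv.norm_map]
      exact hgb' z hz
    · rwa [LinearIsometryEquiv.norm_map]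
    · rwa [LinearIsometryEquiv.norm_map]
    · rw [LinearIsometryEquiv.norm_map, perm_apply, hσ, Equiv.symm_swap, Equiv.swap_apply_left]
      linarith
    · rw [← map_sub, LinearIsometryEquiv.norm_map]
      exact hoff z hz hzb
    · refine hrob (fun z => perm σ.symm (F z)) M τ hM hMA hτ (fun z hz hzb => ?_) (solv_perm hS)
      have h1 : perm σ.symm (F z) - g z = perm σ.symm (F z - perm σ (g z)) := by
        rw [map_sub]
        congr 1
        ext i
        rw [perm_apply, perm_apply]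
        simp
      rw [h1, LinearIsometryEquiv.norm_map]
      exact hF z hz hzb

/-- The exponents. -/
def Adm (n N : ℕ) (t : ℝ) : Prop := t ≤ 3 ∨ t < ((min n (N - 1) : ℕ) : ℝ) + 1

/-- Data on the unit ball without small solutions. -/
theorem ball_dat (hn : 2 ≤ n) (hN : 2 ≤ N) {t : ℝ} (ht : Adm n N t) :
    ∃ c : ℝ, 0 < c ∧ c ≤ 1 ∧ ∀ δ : ℝ, 0 < δ → δ ≤ c →
      ∃ f : En n → En N, DifferentiableOn ℂ f (ball 0 1) ∧
        (∀ z ∈ ball (0 : En n) 1, δ ≤ ‖f z‖ ∧ ‖f z‖ ≤ 1) ∧
        ¬ Solv f (ball 0 1) (c * δ ^ (-t)) := by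
  rcases ht with ht | ht
  · refine ⟨1 / 65, by norm_num, by norm_num, fun δ hδ hδ1 => ?_⟩
    have hA : 1 / 65 * δ ^ (-t) < 1 / (64 * δ ^ 3) := by
      have h1 : δ ^ (-t) ≤ δ ^ (-3 : ℝ) :=
        Real.rpow_le_rpow_of_exponent_ge hδ (by linarith) (by linarith)
      have h2 : δ ^ (-3 : ℝ) = 1 / δ ^ 3 := by
        rw [Real.rpow_neg hδ.le, one_div]
        congr 1
        exact_mod_cast Real.rpow_natCast δ 3
      have h3 : (0 : ℝ) < 1 / δ ^ 3 := by positivity
      calc 1 / 65 * δ ^ (-t) ≤ 1 / 65 * (1 / δ ^ 3) := by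
            rw [← h2]
            exact mul_le_mul_of_nonneg_left h1 (by norm_num)
        _ < 1 / 64 * (1 / δ ^ 3) := by
            apply mul_lt_mul_of_pos_right _ h3
            norm_num
        _ = 1 / (64 * δ ^ 3) := by
            rw [div_mul_div_comm, one_mul]
    obtain ⟨f, h1, h2, h3⟩ := cubic_ball (n := n) (N := N) hn hN hδ (by linarith)
    exact ⟨f, h1, h2, fun hS => absurd (h3 _ hS) (not_le.2 hA)⟩
  · obtain ⟨c, hc, H⟩ := Koszul.koszul_low (n := n) (N := N) (by omega) hN ht (ball 0 1) (ball 0 1)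
      isBounded_ball isOpen_ball (nonempty_ball.2 one_pos)
    refine ⟨min (c / 2) 1, lt_min (by positivity) one_pos, min_le_right _ _, fun δ hδ hδc => ?_⟩
    obtain ⟨q, hq, hq2⟩ := H δ hδ (hδc.trans ((min_le_left _ _).trans (by linarith)))
    have hpol : ∀ q : MvPolynomial (Fin n) ℂ,
        Differentiable ℂ fun z : En n => MvPolynomial.eval (fun i => z i) q := by
      intro q
      induction q using MvPolynomial.induction_on with
      | C a => simp
      | add a b ha hb =>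
        simp only [map_add]
        exact ha.add hb
      | mul_X a i ha =>
        have h1 : Differentiable ℂ fun z : En n => z i :=
          (EuclideanSpace.proj (𝕜 := ℂ) i).differentiable
        simp only [map_mul, MvPolynomial.eval_X]
        exact ha.mul h1
    have hns : ∀ z : En n, ‖(WithLp.toLp 2 fun j => MvPolynomial.eval (fun i => z i) (q j) : En N)‖ ^ 2 =
        ∑ j, ‖MvPolynomial.eval (fun i => z i) (q j)‖ ^ 2 := by
      intro z
      rw [EuclideanSpace.norm_sq_eq]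
    refine ⟨fun z => WithLp.toLp 2 fun j => MvPolynomial.eval (fun i => z i) (q j), ?_, ?_, ?_⟩
    · intro z _
      rw [differentiableWithinAt_euclidean]
      intro j
      exact (hpol (q j)).differentiableAt.differentiableWithinAt
    · intro z hz
      obtain ⟨h1, h2⟩ := hq z (subset_closure hz)
      rw [← hns z] at h1 h2
      constructor
      · exact (sq_le_sq₀ hδ.le (norm_nonneg _)).mp h1
      · have h3 : ‖(WithLp.toLp 2 fun j => MvPolynomial.eval (fun i => z i) (q j) : En N)‖ ^ 2 ≤ 1 ^ 2 := by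
          simpa using h2
        exact (sq_le_sq₀ (norm_nonneg _) zero_le_one).mp h3
    · rintro ⟨h, h1, h2, h3⟩
      have hpos : 0 < δ ^ (-t) := Real.rpow_pos_of_pos hδ _
      have hA : 0 ≤ min (c / 2) 1 * δ ^ (-t) := (norm_nonneg _).trans (h2 0 (mem_ball_self one_pos))
      have h4 := hq2 (fun j z => h z j)
        (fun j => (EuclideanSpace.proj (𝕜 := ℂ) j).differentiable.comp_differentiableOn h1)
        (fun z hz => h3 z hz) _ hA (fun z hz => by
          rw [← EuclideanSpace.norm_sq_eq]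
          exact pow_le_pow_left₀ (norm_nonneg _) (h2 z hz) 2)
      have h5 : min (c / 2) 1 * δ ^ (-t) ≤ c / 2 * δ ^ (-t) :=
        mul_le_mul_of_nonneg_right (min_le_left _ _) hpos.le
      nlinarith

end Pool.Agent.MPca0fc2.WI
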