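import Pool.Agent.Lib.MP_ca0fc2_an.TB.Defs
import Pool.Agent.Lib.MP_ca0fc2_an.Mg.G073

/-! Ideals of bounded holomorphic functions: series and inequalities. -/

set_option autoImplicit false

open Metric Set Filter Topology

namespace Pool.Agent.MPca0fc2.WI

open Pool.Agent.MPca0fc2.TB

variable {n N : ℕ}

/-- A normally convergent series of holomorphic functions of several variables is holomorphic. -/
theorem tsum_holo1 {U : Set (En n)} (hU : IsOpen U) {h : ℕ → En n → ℂ} {u : ℕ → ℝ}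
    (hu : Summable u) (hh : ∀ k, DifferentiableOn ℂ (h k) U) (hb : ∀ k, ∀ z ∈ U, ‖h k z‖ ≤ u k)
    (hu0 : ∀ k, 0 ≤ u k) : DifferentiableOn ℂ (fun z => ∑' k, h k z) U := by
  set 𝒰 : Ultrafilter ℕ := Ultrafilter.of atTop with h𝒰
  have hle : (𝒰 : Filter ℕ) ≤ atTop := Ultrafilter.of_le _
  have hG : ∀ m, DifferentiableOn ℂ (fun z => ∑ k ∈ Finset.range m, h k z) U := fun m =>
    DifferentiableOn.fun_sum fun k _ => hh k
  have hM : ∀ m, ∀ z ∈ U, ‖∑ k ∈ Finset.range m, h k z‖ ≤ ∑' k, u k := by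
    intro m z hz
    refine (norm_sum_le _ _).trans ?_
    refine (Finset.sum_le_sum fun k _ => hb k z hz).trans ?_
    exact hu.sum_le_tsum _ fun k _ => hu0 k
  obtain ⟨g, hg1, -, hg3⟩ := SL.ultra_holo 𝒰 hU (tsum_nonneg hu0) hG hM
  refine hg1.congr fun z hz => ?_
  have hs : Summable fun k => h k z := Summable.of_norm_bounded hu fun k => hb k z hz
  have h1 : Tendsto (fun m => ∑ k ∈ Finset.range m, h k z) atTop (𝓝 (∑' k, h k z)) :=
    hs.hasSum.tendsto_sum_nat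
  exact tendsto_nhds_unique (h1.mono_left hle) (hg3 z hz)

/-- The same for functions with values in a euclidean space. -/
theorem tsum_holo {U : Set (En n)} (hU : IsOpen U) {h : ℕ → En n → En N} {u : ℕ → ℝ}
    (hu : Summable u) (hh : ∀ k, DifferentiableOn ℂ (h k) U) (hb : ∀ k, ∀ z ∈ U, ‖h k z‖ ≤ u k)
    (hu0 : ∀ k, 0 ≤ u k) : DifferentiableOn ℂ (fun z => ∑' k, h k z) U := by
  rw [differentiableOn_euclidean]
  intro i
  refine (tsum_holo1 hU hu (fun k => (differentiableOn_euclidean.1 (hh k)) i)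
    (fun k z hz => (PiLp.norm_apply_le (h k z) i).trans (hb k z hz)) hu0).congr fun z hz => ?_
  have hs : Summable fun k => h k z := Summable.of_norm_bounded hu fun k => hb k z hz
  exact (EuclideanSpace.proj (𝕜 := ℂ) i : StrongDual ℂ (En N)).map_tsum hs

theorem sum_geo : HasSum (fun k : ℕ => (1 / 2 : ℝ) ^ (k + 3)) (1 / 4) := by
  have h1 := (hasSum_geometric_two).mul_left (1 / 8 : ℝ)
  have h2 : (1 / 8 : ℝ) * 2 = 1 / 4 := by norm_num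
  rw [h2] at h1
  have h3 : (fun k : ℕ => (1 / 2 : ℝ) ^ (k + 3)) = fun k => 1 / 8 * (1 / 2) ^ k := by
    funext k
    rw [pow_add]
    ring
  rw [h3]
  exact h1

/-- A point in no ball. -/
theorem off_all {E : Type*} [NormedAddCommGroup E] {B : ℝ} {x : ℕ → E}
    (hx : ∀ k, ‖x k‖ ≤ B * (1 / 2) ^ (k + 3)) : ‖∑' k, x k‖ ≤ B / 4 := by
  have h1 : HasSum (fun k : ℕ => B * (1 / 2 : ℝ) ^ (k + 3)) (B * (1 / 4)) := sum_geo.mul_left B
  have h2 := tsum_of_norm_bounded h1 hx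
  linarith

/-- A point in one ball. -/
theorem off_one {E : Type*} [NormedAddCommGroup E] [CompleteSpace E] {B : ℝ} (hB : 0 ≤ B) {x : ℕ → E}
    (k₀ : ℕ) (hx : ∀ k, k ≠ k₀ → ‖x k‖ ≤ B * (1 / 2) ^ (k + 3)) : ‖∑' k, x k - x k₀‖ ≤ B / 4 := by
  have h1 : HasSum (fun k : ℕ => B * (1 / 2 : ℝ) ^ (k + 3)) (B * (1 / 4)) := sum_geo.mul_left B
  have hs : Summable x := by
    refine Summable.of_norm_bounded_eventually_nat h1.summable ?_
    filter_upwards [eventually_gt_atTop k₀] with k hk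
    exact hx k hk.ne'
  rw [hs.tsum_eq_add_tsum_ite k₀, add_sub_cancel_left]
  have h2 : ‖∑' k, (if k = k₀ then 0 else x k)‖ ≤ B * (1 / 4) := by
    refine tsum_of_norm_bounded h1 fun k => ?_
    by_cases e : k = k₀
    · rw [if_pos e, norm_zero]
      positivity
    · rw [if_neg e]
      exact hx k e
  linarith

/-- The sum of a multiple of a basis vector and of a multiple of a vector which is not nearly parallel to it. -/
theorem angle {c : En N} {i₀ : Fin N} (hc : 2 * ‖c i₀‖ ^ 2 ≤ ‖c‖ ^ 2) (a b : ℂ) :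
    ‖b‖ ^ 2 ≤ 2 * ‖b • (EuclideanSpace.single i₀ (1 : ℂ) : En N) + a • c‖ ^ 2 ∧
      (‖a‖ * ‖c‖) ^ 2 ≤ 2 * ‖b • (EuclideanSpace.single i₀ (1 : ℂ) : En N) + a • c‖ ^ 2 := by
  classical
  have h1 : ‖b • (EuclideanSpace.single i₀ (1 : ℂ) : En N) + a • c‖ ^ 2 =
      ‖b + a * c i₀‖ ^ 2 + ‖a‖ ^ 2 * (‖c‖ ^ 2 - ‖c i₀‖ ^ 2) := by
    rw [EuclideanSpace.norm_sq_eq, EuclideanSpace.norm_sq_eq c,
      ← Finset.add_sum_erase _ _ (Finset.mem_univ i₀), ← Finset.add_sum_erase _ (fun i => ‖c i‖ ^ 2) (Finset.mem_univ i₀),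
      add_sub_cancel_left, Finset.mul_sum]
    congr 1
    · simp
    · refine Finset.sum_congr rfl fun i hi => ?_
      have : i ≠ i₀ := Finset.ne_of_mem_erase hi
      simp [this, mul_pow]
  rw [h1]
  have h2 : ‖b‖ ≤ ‖b + a * c i₀‖ + ‖a‖ * ‖c i₀‖ := by
    rw [← norm_mul]
    calc ‖b‖ = ‖(b + a * c i₀) - a * c i₀‖ := by simp
      _ ≤ _ := norm_sub_le _ _
  have h3 : ‖a‖ ^ 2 * ‖c i₀‖ ^ 2 ≤ ‖a‖ ^ 2 * (‖c‖ ^ 2 - ‖c i₀‖ ^ 2) :=
    mul_le_mul_of_nonneg_left (by linarith) (by positivity)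
  have h4 : ‖a‖ ^ 2 * ‖c‖ ^ 2 ≤ 2 * (‖a‖ ^ 2 * (‖c‖ ^ 2 - ‖c i₀‖ ^ 2)) := by
    nlinarith [sq_nonneg ‖a‖]
  constructor
  · have h5 : ‖b‖ ^ 2 ≤ (‖b + a * c i₀‖ + ‖a‖ * ‖c i₀‖) ^ 2 :=
      pow_le_pow_left₀ (norm_nonneg _) h2 2
    nlinarith [sq_nonneg (‖b + a * c i₀‖ - ‖a‖ * ‖c i₀‖)]
  · rw [mul_pow]
    nlinarith [sq_nonneg ‖b + a * c i₀‖]

/-- The lower bound outside of the small balls. -/
theorem angle' {c f : En N} {i₀ : Fin N} (hc : 2 * ‖c i₀‖ ^ 2 ≤ ‖c‖ ^ 2) {a b : ℂ} {g E : En N}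
    (hf : f = b • (EuclideanSpace.single i₀ (1 : ℂ) : En N) + a • g + E) (hE : ‖E‖ ≤ ‖b‖ / 4)
    (hg : ‖g - c‖ ≤ ‖c‖ / 10) : ‖b‖ ≤ 3 * ‖f‖ ∧ ‖a‖ * ‖c‖ ≤ 3 * ‖f‖ := by
  set v : En N := b • (EuclideanSpace.single i₀ (1 : ℂ) : En N) + a • c with hv
  obtain ⟨h1, h2⟩ := angle hc a b
  rw [← hv] at h1 h2
  have hb : ‖b‖ ≤ 71 / 50 * ‖v‖ := by
    refine (abs_le_of_sq_le_sq' ?_ (by positivity)).2
    nlinarith [sq_nonneg ‖v‖]
  have ha : ‖a‖ * ‖c‖ ≤ 71 / 50 * ‖v‖ := by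
    refine (abs_le_of_sq_le_sq' ?_ (by positivity)).2
    nlinarith [sq_nonneg ‖v‖]
  have h3 : v = f - (a • (g - c) + E) := by
    rw [hf, hv, smul_sub]
    abel
  have h4 : ‖v‖ ≤ ‖f‖ + (‖a‖ * (‖c‖ / 10) + ‖b‖ / 4) := by
    rw [h3]
    refine (norm_sub_le _ _).trans ?_
    gcongr
    refine (norm_add_le _ _).trans ?_
    rw [norm_smul]
    gcongr
  have h5 : ‖a‖ * (‖c‖ / 10) = ‖a‖ * ‖c‖ / 10 := by ring
  have h6 := norm_nonneg v
  constructor <;> linarith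

end Pool.Agent.MPca0fc2.WI
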