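import Pool.Agent.Lib.MP_ca0fc2_an.Mg.G078

/-! Ideals of bounded holomorphic functions: peak functions and the sequence of boundary points. -/

set_option autoImplicit false

open Metric Set Filter Topology

namespace Pool.Agent.MPca0fc2.WI

open Pool.Agent.Lib.MP_ca0fc2_an (SupportData)
open Pool.Agent.MPca0fc2.TB

variable {n : ℕ}

/-- The support function at a boundary point. -/
theorem peak {D U : Set (En n)} {ρ : En n → ℝ} {h : En n → En n → Fin n → ℂ} {c : ℝ}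
    (hs : SupportData D U ρ h c) {q : En n} (hq : q ∈ frontier D) :
    ∃ w : En n → ℂ, DifferentiableOn ℂ w D ∧ ContinuousOn w (closure D) ∧ w q = 0 ∧
      ∀ z ∈ closure D, c * ‖z - q‖ ^ 2 ≤ (w z).re := by
  obtain ⟨r, hk⟩ := pk_of_support hs hq
  exact ⟨_, hk.hol.mono (subset_closure.trans hk.clV), hk.cw.continuousOn.mono hk.clV, hk.w0, hk.pos⟩

/-- The function `β`, which vanishes on the closure of `D` only at `p`. -/
theorem base {D U : Set (En n)} {ρ : En n → ℝ} {h : En n → En n → Fin n → ℂ} {c : ℝ}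
    (hs : SupportData D U ρ h c) {p : En n} (hp : p ∈ frontier D) :
    ∃ β : En n → ℂ, DifferentiableOn ℂ β D ∧ ContinuousOn β (closure D) ∧ β p = 0 ∧
      (∀ z ∈ closure D, ‖β z‖ ≤ 1) ∧ ∀ z ∈ closure D, z ≠ p → β z ≠ 0 := by
  obtain ⟨w, hw, hwc, hw0, hwp⟩ := peak hs hp
  have hcpt : IsCompact (closure D) := (support_bdry hs).2.1.isCompact_closure
  obtain ⟨C, hC⟩ := hcpt.exists_bound_of_continuousOn hwc
  set M : ℝ := max C 1 with hM
  have hM1 : 1 ≤ M := le_max_right _ _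
  have hM0 : (0 : ℝ) < M := by linarith
  have hMn : ‖(M : ℂ)⁻¹‖ = M⁻¹ := by
    rw [norm_inv, Complex.norm_real, Real.norm_of_nonneg hM0.le]
  refine ⟨fun z => (M : ℂ)⁻¹ * w z, hw.const_mul _, continuousOn_const.mul hwc,
    by simp only [hw0, mul_zero],
    fun z hz => ?_, fun z hz hne => ?_⟩
  · rw [norm_mul, hMn, inv_mul_le_iff₀ hM0, mul_one]
    exact (hC z hz).trans (le_max_left _ _)
  · refine mul_ne_zero ?_ ?_
    · rw [Ne, inv_eq_zero, Complex.ofReal_eq_zero]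
      exact hM0.ne'
    · intro h0
      have h1 := hwp z hz
      rw [h0, Complex.zero_re] at h1
      have h2 : 0 < ‖z - p‖ := norm_pos_iff.2 (sub_ne_zero.2 hne)
      have h3 : 0 < c * ‖z - p‖ ^ 2 := mul_pos hs.c0 (by positivity)
      linarith

/-- The sequence of the boundary points `P k`, with disjoint balls in which `β` is small and nearly constant. -/
theorem choose_seq (hn : 1 ≤ n) {D U : Set (En n)} {ρ : En n → ℝ} {h : En n → En n → Fin n → ℂ}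
    {c : ℝ} (hs : SupportData D U ρ h c) {p : En n} (hp : p ∈ frontier D) {β : En n → ℂ}
    (hβc : ContinuousOn β (closure D)) (hβp : β p = 0) (hβ0 : ∀ z ∈ closure D, z ≠ p → β z ≠ 0)
    {ε : ℕ → ℝ} (hε : ∀ k, 0 < ε k) :
    ∃ (P : ℕ → En n) (R : ℕ → ℝ), (∀ k, P k ∈ frontier D) ∧ (∀ k, 0 < R k) ∧
      Tendsto P atTop (𝓝 p) ∧ Tendsto R atTop (𝓝 0) ∧ (∀ k, β (P k) ≠ 0) ∧
      (∀ j k, j ≠ k → Disjoint (ball (P j) (R j)) (ball (P k) (R k))) ∧
      ∀ k, ∀ z ∈ closure D, z ∈ ball (P k) (R k) → ‖β z‖ ≤ ε k ∧ ‖β z‖ ≤ 3 / 2 * ‖β (P k)‖ := by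
  obtain ⟨P, s, hPf, hs0, hPt, hst, hsP, hdis⟩ := exists_seq hn hs hp
  have hpc : p ∈ closure D := frontier_subset_closure hp
  have hP0 : ∀ k, β (P k) ≠ 0 := fun k => by
    refine hβ0 _ (frontier_subset_closure (hPf k)) fun e => ?_
    have h1 := hsP k
    rw [e, sub_self, norm_zero] at h1
    exact absurd h1 (not_lt.2 (hs0 k).le)
  have hR : ∀ k, ∃ R, 0 < R ∧ R ≤ s k ∧ ∀ z ∈ closure D, z ∈ ball (P k) R → ‖β z‖ ≤ 3 / 2 * ‖β (P k)‖ := by
    intro k
    have h1 : ∀ᶠ z in 𝓝[closure D] (P k), ‖β z‖ < 3 / 2 * ‖β (P k)‖ := by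
      have h2 : ContinuousWithinAt (fun z => ‖β z‖) (closure D) (P k) :=
        hβc.norm _ (frontier_subset_closure (hPf k))
      refine h2.eventually (gt_mem_nhds ?_)
      have : 0 < ‖β (P k)‖ := norm_pos_iff.2 (hP0 k)
      linarith
    obtain ⟨δ, hδ, hδ2⟩ := Metric.mem_nhdsWithin_iff.1 h1
    refine ⟨min δ (s k), lt_min hδ (hs0 k), min_le_right _ _, fun z hz hzb => ?_⟩
    exact le_of_lt (hδ2 ⟨ball_subset_ball (min_le_left _ _) hzb, hz⟩)
  choose R hR0 hRs hRb using hR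
  have hev : ∀ m : ℕ, ∀ᶠ k in atTop, ∀ z ∈ closure D, z ∈ ball (P k) (R k) → ‖β z‖ ≤ ε m := by
    intro m
    have h1 : ∀ᶠ z in 𝓝[closure D] p, ‖β z‖ < ε m := by
      have h2 : ContinuousWithinAt (fun z => ‖β z‖) (closure D) p := hβc.norm _ hpc
      refine h2.eventually (gt_mem_nhds ?_)
      show ‖β p‖ < ε m
      rw [hβp, norm_zero]
      exact hε m
    obtain ⟨δ, hδ, hδ2⟩ := Metric.mem_nhdsWithin_iff.1 h1
    have h3 : ∀ᶠ k in atTop, dist (P k) p < δ / 2 := (Metric.tendsto_nhds.mp hPt) (δ / 2) (by positivity)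
    have h4 : ∀ᶠ k in atTop, s k < δ / 2 := hst.eventually_lt_const (by positivity)
    filter_upwards [h3, h4] with k h3 h4 z hz hzb
    refine le_of_lt (hδ2 ⟨?_, hz⟩)
    have h5 : ball (P k) (R k) ⊆ ball p δ := ball_subset_ball' (by
      have := hRs k
      linarith)
    exact h5 hzb
  obtain ⟨φ, hφ, hφ2⟩ := extraction_forall_of_eventually hev
  refine ⟨P ∘ φ, R ∘ φ, fun k => hPf _, fun k => hR0 _, hPt.comp hφ.tendsto_atTop, ?_, fun k => hP0 _,
    fun j k hjk => ?_, fun k z hz hzb => ⟨hφ2 k z hz hzb, hRb _ z hz hzb⟩⟩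
  · exact (squeeze_zero (fun k => (hR0 k).le) hRs hst).comp hφ.tendsto_atTop
  · exact (hdis _ _ fun e => hjk (hφ.injective e)).mono (ball_subset_ball (hRs _))
      (ball_subset_ball (hRs _))

/-- The peak functions. -/
theorem peak_fun {D U : Set (En n)} {ρ : En n → ℝ} {h : En n → En n → Fin n → ℂ} {c : ℝ}
    (hs : SupportData D U ρ h c) {q : En n} (hq : q ∈ frontier D) {β : En n → ℂ}
    (hβ : DifferentiableOn ℂ β D) (hβc : ContinuousOn β (closure D)) (hβq : β q ≠ 0) {R : ℝ}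
    (hR : 0 < R) (hb : ∀ z ∈ closure D, z ∈ ball q R → ‖β z‖ ≤ 3 / 2 * ‖β q‖) {ε : ℝ} (hε : 0 < ε) :
    ∃ (φ : En n → ℂ) (r : ℝ), DifferentiableOn ℂ φ D ∧ ContinuousOn φ (closure D) ∧
      (∀ z ∈ closure D, z ∉ ball q R → ‖φ z‖ ≤ ε * ‖β z‖) ∧
      (∀ z ∈ closure D, z ∈ ball q R → ‖φ z‖ ≤ 3 / 2) ∧ 0 < r ∧ r ≤ R ∧
      ∀ z ∈ closure D, z ∈ ball q r → 3 / 4 ≤ ‖φ z‖ := by
  obtain ⟨w, hw, hwc, hw0, hwp⟩ := peak hs hq
  have hc0 := hs.c0
  have hβn : 0 < ‖β q‖ := norm_pos_iff.2 hβq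
  -- the exponent
  obtain ⟨K, hK0, hK⟩ : ∃ K : ℝ, 0 ≤ K ∧ Real.exp (-(K * (c * R ^ 2))) ≤ ε * ‖β q‖ := by
    have h1 : Tendsto (fun K : ℝ => Real.exp (-(K * (c * R ^ 2)))) atTop (𝓝 0) := by
      refine Real.tendsto_exp_neg_atTop_nhds_zero.comp ?_
      exact tendsto_id.atTop_mul_const (by positivity)
    obtain ⟨K, h2, h3⟩ := ((h1.eventually (gt_mem_nhds (show (0 : ℝ) < ε * ‖β q‖ by positivity))).and
      (eventually_ge_atTop 0)).exists
    exact ⟨K, h3, h2.le⟩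
  set φ : En n → ℂ := fun z => β z / β q * Complex.exp (-(K * w z)) with hφ
  have hφn : ∀ z, ‖φ z‖ = ‖β z‖ / ‖β q‖ * Real.exp (-(K * (w z).re)) := by
    intro z
    rw [hφ]
    simp only [norm_mul, norm_div, Complex.norm_exp]
    congr 2
    simp
  have hφc : ContinuousOn φ (closure D) :=
    (hβc.div_const _).mul (Complex.continuous_exp.comp_continuousOn
      ((continuousOn_const.mul hwc).neg))
  have hφq : ‖φ q‖ = 1 := by
    rw [hφn, hw0, Complex.zero_re, mul_zero, neg_zero, Real.exp_zero, mul_one, div_self hβn.ne']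
  obtain ⟨δ, hδ, hδ2⟩ : ∃ δ > 0, ∀ z ∈ closure D, z ∈ ball q δ → 3 / 4 ≤ ‖φ z‖ := by
    have h1 : ∀ᶠ z in 𝓝[closure D] q, 3 / 4 < ‖φ z‖ := by
      have h2 : ContinuousWithinAt (fun z => ‖φ z‖) (closure D) q :=
        hφc.norm _ (frontier_subset_closure hq)
      refine h2.eventually (lt_mem_nhds ?_)
      show 3 / 4 < ‖φ q‖
      rw [hφq]
      norm_num
    obtain ⟨δ, hδ, hδ2⟩ := Metric.mem_nhdsWithin_iff.1 h1
    exact ⟨δ, hδ, fun z hz hzb => le_of_lt (hδ2 ⟨hzb, hz⟩)⟩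
  refine ⟨φ, min δ R, ?_, hφc, fun z hz hzb => ?_, fun z hz hzb => ?_, lt_min hδ hR, min_le_right _ _,
    fun z hz hzb => hδ2 z hz (ball_subset_ball (min_le_left _ _) hzb)⟩
  · have h1 : DifferentiableOn ℂ (fun z => β z / β q) D := by
      simp only [div_eq_mul_inv]
      exact hβ.mul_const _
    exact h1.mul ((hw.const_mul _).neg.cexp)
  · rw [hφn]
    have h1 : R ≤ ‖z - q‖ := by
      rw [mem_ball, dist_eq_norm] at hzb
      exact not_lt.mp hzb
    have h2 : Real.exp (-(K * (w z).re)) ≤ ε * ‖β q‖ := by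
      refine le_trans (Real.exp_le_exp.2 ?_) hK
      have h3 : c * R ^ 2 ≤ (w z).re := by
        refine le_trans ?_ (hwp z hz)
        gcongr
      have := mul_le_mul_of_nonneg_left h3 hK0
      linarith
    calc ‖β z‖ / ‖β q‖ * Real.exp (-(K * (w z).re)) ≤ ‖β z‖ / ‖β q‖ * (ε * ‖β q‖) :=
          mul_le_mul_of_nonneg_left h2 (by positivity)
      _ = ε * ‖β z‖ := by
          field_simp
  · rw [hφn]
    have h1 : Real.exp (-(K * (w z).re)) ≤ 1 := by
      rw [Real.exp_le_one_iff, neg_nonpos]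
      refine mul_nonneg hK0 (le_trans ?_ (hwp z hz))
      positivity
    have h2 : ‖β z‖ / ‖β q‖ ≤ 3 / 2 := by
      rw [div_le_iff₀ hβn]
      exact hb z hz hzb
    calc ‖β z‖ / ‖β q‖ * Real.exp (-(K * (w z).re)) ≤ ‖β z‖ / ‖β q‖ * 1 :=
          mul_le_mul_of_nonneg_left h1 (by positivity)
      _ ≤ 3 / 2 := by linarith

end Pool.Agent.MPca0fc2.WI
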