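import Pool.Agent.Lib.MP_ca0fc2_an.WI.A
import Pool.Agent.Lib.MP_ca0fc2_an.WI.B
import Pool.Agent.Lib.MP_ca0fc2_an.WI.C

/-! Ideals of bounded holomorphic functions: the construction. -/

set_option autoImplicit false

open Metric Set Filter Topology

namespace Pool.Agent.MPca0fc2.WI

open Pool.Agent.MPca0fc2.TB

variable {n N : ℕ}

/-- The data of the construction. -/
structure Dat (D : Set (En n)) (p : En n) (i₀ : Fin N) (β : En n → ℂ) (lam del ep A : ℕ → ℝ)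
    (P : ℕ → En n) (R r : ℕ → ℝ) (φ : ℕ → En n → ℂ) (g : ℕ → En n → En N) (c : ℕ → En N) : Prop where
  opn : IsOpen D
  βd : DifferentiableOn ℂ β D
  βc : ContinuousOn β (closure D)
  β1 : ∀ z ∈ closure D, ‖β z‖ ≤ 1
  β0 : ∀ z ∈ closure D, z ≠ p → β z ≠ 0
  lam0 : ∀ k, 0 < lam k
  lam1 : ∀ k, lam k ≤ 1
  del0 : ∀ k, 0 < del k
  del1 : ∀ k, del k ≤ 1
  sl : Summable lam
  ep5 : ∀ k, ep k ≤ lam k * del k / 5
  epA : ∀ k, 5 / 3 * (ep k / lam k) * (A k / 2) ≤ 1 / 2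
  dis : ∀ j k, j ≠ k → Disjoint (ball (P j) (R j)) (ball (P k) (R k))
  Pt : Tendsto P atTop (𝓝 p)
  Rt : Tendsto R atTop (𝓝 0)
  sm : ∀ k, ∀ z ∈ closure D, z ∈ ball (P k) (R k) → ‖β z‖ ≤ ep k
  φd : ∀ k, DifferentiableOn ℂ (φ k) D
  φc : ∀ k, ContinuousOn (φ k) (closure D)
  φoff : ∀ k, ∀ z ∈ closure D, z ∉ ball (P k) (R k) → ‖φ k z‖ ≤ (1 / 2) ^ (k + 3) * ‖β z‖
  φin : ∀ k, ∀ z ∈ closure D, z ∈ ball (P k) (R k) → ‖φ k z‖ ≤ 3 / 2
  r0 : ∀ k, 0 < r k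
  rR : ∀ k, r k ≤ R k
  φlow : ∀ k, ∀ z ∈ closure D, z ∈ ball (P k) (r k) → 3 / 4 ≤ ‖φ k z‖
  gd : ∀ k, DifferentiableOn ℂ (g k) D
  gc : ∀ k, ContinuousOn (g k) (closure D)
  gb : ∀ k, ∀ z ∈ closure D, del k ≤ ‖g k z‖ ∧ ‖g k z‖ ≤ 1
  cl : ∀ k, del k ≤ ‖c k‖
  ca : ∀ k, 2 * ‖c k i₀‖ ^ 2 ≤ ‖c k‖ ^ 2
  goff : ∀ k, ∀ z ∈ closure D, z ∉ ball (P k) (r k) → ‖g k z - c k‖ ≤ del k / 10
  rob : ∀ k, ∀ (F : En n → En N) (M τ : ℝ), 0 ≤ M → 2 * M ≤ A k → τ * M ≤ 1 / 2 →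
    (∀ z ∈ D, z ∈ ball (P k) (r k) → ‖F z - g k z‖ ≤ τ) → ¬ Solv F (D ∩ ball (P k) (r k)) M

variable {D : Set (En n)} {p : En n} {i₀ : Fin N} {β : En n → ℂ} {lam del ep A : ℕ → ℝ}
  {P : ℕ → En n} {R r : ℕ → ℝ} {φ : ℕ → En n → ℂ} {g : ℕ → En n → En N} {c : ℕ → En N}

/-- The bound of the peak functions. -/
theorem Dat.φb (h : Dat D p i₀ β lam del ep A P R r φ g c) (k : ℕ) {z : En n} (hz : z ∈ closure D) :
    ‖φ k z‖ ≤ 3 / 2 := by
  by_cases hb : z ∈ ball (P k) (R k)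
  · exact h.φin k z hz hb
  · refine (h.φoff k z hz hb).trans ?_
    have h1 : (1 / 2 : ℝ) ^ (k + 3) ≤ 1 := pow_le_one₀ (by norm_num) (by norm_num)
    have h2 := h.β1 z hz
    calc (1 / 2 : ℝ) ^ (k + 3) * ‖β z‖ ≤ 1 * 1 := mul_le_mul h1 h2 (norm_nonneg _) zero_le_one
      _ ≤ 3 / 2 := by norm_num

/-- The terms of the series of the generators. -/
noncomputable def Tf (lam : ℕ → ℝ) (φ : ℕ → En n → ℂ) (g : ℕ → En n → En N) (k : ℕ) (z : En n) :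
    En N := ((lam k : ℂ) * φ k z) • g k z

/-- The terms of the series of the function. -/
noncomputable def Tg (mu : ℕ → ℝ) (φ : ℕ → En n → ℂ) (k : ℕ) (z : En n) : ℂ := (mu k : ℂ) * φ k z

/-- The generators. -/
noncomputable def ff (i₀ : Fin N) (β : En n → ℂ) (lam : ℕ → ℝ) (φ : ℕ → En n → ℂ)
    (g : ℕ → En n → En N) (z : En n) : En N :=
  β z • (EuclideanSpace.single i₀ (1 : ℂ) : En N) + ∑' k, Tf lam φ g k z

/-- The function. -/
noncomputable def gg (mu : ℕ → ℝ) (φ : ℕ → En n → ℂ) (z : En n) : ℂ :=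
  (1 / 6 : ℂ) * ∑' k, Tg mu φ k z

theorem Dat.norm_Tf (h : Dat D p i₀ β lam del ep A P R r φ g c) (k : ℕ) {z : En n}
    (hz : z ∈ closure D) : ‖Tf lam φ g k z‖ ≤ lam k * ‖φ k z‖ := by
  rw [Tf, norm_smul, norm_mul, Complex.norm_real, Real.norm_of_nonneg (h.lam0 k).le]
  have h1 := (h.gb k z hz).2
  have h2 : 0 ≤ lam k * ‖φ k z‖ := mul_nonneg (h.lam0 k).le (norm_nonneg _)
  nlinarith

theorem norm_Tg {mu : ℕ → ℝ} (hmu : ∀ k, 0 ≤ mu k) (k : ℕ) (z : En n) :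
    ‖Tg mu φ k z‖ = mu k * ‖φ k z‖ := by
  rw [Tg, norm_mul, Complex.norm_real, Real.norm_of_nonneg (hmu k)]

theorem Dat.ff_reg (h : Dat D p i₀ β lam del ep A P R r φ g c) :
    DifferentiableOn ℂ (ff i₀ β lam φ g) D ∧ ContinuousOn (ff i₀ β lam φ g) (closure D) := by
  have hd : ∀ k, DifferentiableOn ℂ (Tf lam φ g k) D := fun k =>
    ((h.φd k).const_mul _).smul (h.gd k)
  have hc : ∀ k, ContinuousOn (Tf lam φ g k) (closure D) := fun k =>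
    (continuousOn_const.mul (h.φc k)).smul (h.gc k)
  have hb : ∀ k, ∀ z ∈ closure D, ‖Tf lam φ g k z‖ ≤ lam k * (3 / 2) := fun k z hz =>
    (h.norm_Tf k hz).trans (mul_le_mul_of_nonneg_left (h.φb k hz) (h.lam0 k).le)
  have hs : Summable fun k => lam k * (3 / 2) := h.sl.mul_right _
  constructor
  · refine (h.βd.smul_const _).add ?_
    exact tsum_holo h.opn hs hd (fun k z hz => hb k z (subset_closure hz))
      fun k => mul_nonneg (h.lam0 k).le (by norm_num)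
  · refine (h.βc.smul continuousOn_const).add ?_
    exact continuousOn_tsum hc hs hb

theorem Dat.gg_reg (h : Dat D p i₀ β lam del ep A P R r φ g c) {mu : ℕ → ℝ} (hmu : ∀ k, 0 ≤ mu k)
    (hsm : Summable mu) :
    DifferentiableOn ℂ (gg mu φ) D ∧ ContinuousOn (gg mu φ) (closure D) := by
  have hd : ∀ k, DifferentiableOn ℂ (Tg mu φ k) D := fun k => (h.φd k).const_mul _
  have hc : ∀ k, ContinuousOn (Tg mu φ k) (closure D) := fun k => continuousOn_const.mul (h.φc k)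
  have hb : ∀ k, ∀ z ∈ closure D, ‖Tg mu φ k z‖ ≤ mu k * (3 / 2) := fun k z hz => by
    rw [norm_Tg hmu]
    exact mul_le_mul_of_nonneg_left (h.φb k hz) (hmu k)
  have hs : Summable fun k => mu k * (3 / 2) := hsm.mul_right _
  constructor
  · refine DifferentiableOn.const_mul ?_ _
    exact tsum_holo1 h.opn hs hd (fun k z hz => hb k z (subset_closure hz))
      fun k => mul_nonneg (hmu k) (by norm_num)
  · refine continuousOn_const.mul ?_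
    exact continuousOn_tsum hc hs hb

/-- Points in no ball. -/
theorem Dat.out (h : Dat D p i₀ β lam del ep A P R r φ g c) {mu : ℕ → ℝ} (hmu : ∀ k, 0 ≤ mu k)
    (hmu1 : ∀ k, mu k ≤ 1) {z : En n} (hz : z ∈ closure D) (hb : ∀ k, z ∉ ball (P k) (R k)) :
    ‖ff i₀ β lam φ g z - β z • (EuclideanSpace.single i₀ (1 : ℂ) : En N)‖ ≤ ‖β z‖ / 4 ∧
      ‖gg mu φ z‖ ≤ 1 / 6 * (‖β z‖ / 4) := by
  constructor
  · rw [ff, add_sub_cancel_left]
    refine off_all fun k => (h.norm_Tf k hz).trans ?_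
    have h1 := h.φoff k z hz (hb k)
    have h2 := h.lam1 k
    have h3 := h.lam0 k
    calc lam k * ‖φ k z‖ ≤ 1 * ((1 / 2) ^ (k + 3) * ‖β z‖) :=
          mul_le_mul h2 h1 (norm_nonneg _) zero_le_one
      _ = ‖β z‖ * (1 / 2) ^ (k + 3) := by ring
  · rw [gg, norm_mul]
    have h6 : ‖(1 / 6 : ℂ)‖ = 1 / 6 := by simp
    rw [h6]
    refine mul_le_mul_of_nonneg_left ?_ (by norm_num)
    refine off_all fun k => ?_
    rw [norm_Tg hmu]
    have h1 := h.φoff k z hz (hb k)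
    calc mu k * ‖φ k z‖ ≤ 1 * ((1 / 2) ^ (k + 3) * ‖β z‖) :=
          mul_le_mul (hmu1 k) h1 (norm_nonneg _) zero_le_one
      _ = ‖β z‖ * (1 / 2) ^ (k + 3) := by ring

/-- Points in one ball. -/
theorem Dat.inn (h : Dat D p i₀ β lam del ep A P R r φ g c) {mu : ℕ → ℝ} (hmu : ∀ k, 0 ≤ mu k)
    (hmu1 : ∀ k, mu k ≤ 1) {z : En n} (hz : z ∈ closure D) {k : ℕ} (hb : z ∈ ball (P k) (R k)) :
    ‖ff i₀ β lam φ g z - β z • (EuclideanSpace.single i₀ (1 : ℂ) : En N) - Tf lam φ g k z‖ ≤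
        ‖β z‖ / 4 ∧
      ‖6 * gg mu φ z - Tg mu φ k z‖ ≤ ‖β z‖ / 4 := by
  have hdis : ∀ j, j ≠ k → z ∉ ball (P j) (R j) := fun j hj hz' =>
    Set.disjoint_left.1 (h.dis j k hj) hz' hb
  constructor
  · rw [ff, add_sub_cancel_left]
    refine off_one (norm_nonneg _) k fun j hj => (h.norm_Tf j hz).trans ?_
    have h1 := h.φoff j z hz (hdis j hj)
    calc lam j * ‖φ j z‖ ≤ 1 * ((1 / 2) ^ (j + 3) * ‖β z‖) :=
          mul_le_mul (h.lam1 j) h1 (norm_nonneg _) zero_le_one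
      _ = ‖β z‖ * (1 / 2) ^ (j + 3) := by ring
  · have h6 : 6 * gg mu φ z = ∑' k, Tg mu φ k z := by
      rw [gg, ← mul_assoc]
      norm_num
    rw [h6]
    refine off_one (norm_nonneg _) k fun j hj => ?_
    rw [norm_Tg hmu]
    have h1 := h.φoff j z hz (hdis j hj)
    calc mu j * ‖φ j z‖ ≤ 1 * ((1 / 2) ^ (j + 3) * ‖β z‖) :=
          mul_le_mul (hmu1 j) h1 (norm_nonneg _) zero_le_one
      _ = ‖β z‖ * (1 / 2) ^ (j + 3) := by ring

end Pool.Agent.MPca0fc2.WI
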