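import Mathlib

/-! Ideals of bounded holomorphic functions: regular minorants of gauge functions. -/

set_option autoImplicit false

open Metric Set Filter Topology

namespace Pool.Agent.MPca0fc2.WI

/-- A regular minorant of a gauge function which is large in comparison with `x ^ t`. -/
theorem gauge {t : ℝ} (ht : 0 < t) {w : ℝ → ℝ}
    (hw : Tendsto (fun x => w x / x ^ t) (𝓝[>] 0) atTop) {m : ℕ} (hm : t ≤ m) :
    ∃ (x₀ : ℝ) (ζ : ℝ → ℝ), 0 < x₀ ∧ (∀ x, 0 < x → 0 < ζ x) ∧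
      (∀ x y, 0 < x → x ≤ y → ζ x ≤ ζ y) ∧ (∀ x y, 0 < x → x ≤ y → ζ y * x ≤ ζ x * y) ∧
      Tendsto ζ (𝓝[>] 0) (𝓝 0) ∧ Tendsto (fun x => ζ x ^ m / x ^ t) (𝓝[>] 0) atTop ∧
      ∀ x, 0 < x → x ≤ x₀ → ζ x ^ m ≤ w x := by
  have hm0 : (0 : ℝ) < m := ht.trans_le hm
  have hmne : m ≠ 0 := by
    rintro rfl
    simp at hm0
  -- the interval on which the quotient is at least one
  obtain ⟨x₀, hx0, hx1⟩ : ∃ x₀ > 0, ∀ x, 0 < x → x ≤ x₀ → 1 ≤ w x / x ^ t := by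
    obtain ⟨a, ha, ha2⟩ := (mem_nhdsGT_iff_exists_Ioc_subset).1 (hw.eventually (eventually_ge_atTop 1))
    exact ⟨a, ha, fun x h1 h2 => ha2 ⟨h1, h2⟩⟩
  set a : ℝ := t / 2 with ha
  have ha0 : 0 < a := by positivity
  have : Nonempty {y : ℝ // 0 < y ∧ y ≤ x₀} := ⟨⟨x₀, hx0, le_rfl⟩⟩
  set Ψ : ℝ → {y : ℝ // 0 < y ∧ y ≤ x₀} → ℝ := fun x y => w y / (y : ℝ) ^ t * (max 1 (y / x)) ^ a with hΨ
  set ψ : ℝ → ℝ := fun x => ⨅ y, Ψ x y with hψ
  have hmax : ∀ x y : ℝ, (1 : ℝ) ≤ (max 1 (y / x)) ^ a := fun x y =>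
    Real.one_le_rpow (le_max_left _ _) ha0.le
  have hΨ1 : ∀ x y, 1 ≤ Ψ x y := fun x y => by
    have h1 := hx1 y y.2.1 y.2.2
    have h2 := hmax x y
    calc (1 : ℝ) = 1 * 1 := (one_mul 1).symm
      _ ≤ _ := mul_le_mul h1 h2 zero_le_one (by linarith)
  have hbdd : ∀ x, BddBelow (range (Ψ x)) := fun x => ⟨1, by
    rintro _ ⟨y, rfl⟩
    exact hΨ1 x y⟩
  have hψ1 : ∀ x, 1 ≤ ψ x := fun x => le_ciInf fun y => hΨ1 x y
  have hψle : ∀ x (hx : 0 < x) (hx' : x ≤ x₀), ψ x ≤ w x / x ^ t := fun x hx hx' => by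
    refine (ciInf_le (hbdd x) ⟨x, hx, hx'⟩).trans (le_of_eq ?_)
    simp [hΨ, div_self hx.ne']
  have hanti : ∀ x y, 0 < x → x ≤ y → ψ y ≤ ψ x := fun x y hx hxy => by
    refine le_ciInf fun z => (ciInf_le (hbdd y) z).trans ?_
    have h1 : 0 ≤ w z / (z : ℝ) ^ t := zero_le_one.trans (hx1 z z.2.1 z.2.2)
    refine mul_le_mul_of_nonneg_left (Real.rpow_le_rpow (by positivity) ?_ ha0.le) h1
    exact max_le_max le_rfl (div_le_div_of_nonneg_left z.2.1.le hx hxy)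
  have hmono : ∀ x y, 0 < x → x ≤ y → x ^ a * ψ x ≤ y ^ a * ψ y := fun x y hx hxy => by
    have hy : 0 < y := hx.trans_le hxy
    have h0 : 0 < y ^ a := Real.rpow_pos_of_pos hy _
    have h2 : x ^ a * ψ x / y ^ a ≤ ψ y := by
      refine le_ciInf fun z => ?_
      rw [div_le_iff₀ h0]
      have h1 : 0 ≤ w z / (z : ℝ) ^ t := zero_le_one.trans (hx1 z z.2.1 z.2.2)
      have h3 : x ^ a * ψ x ≤ x ^ a * Ψ x z :=
        mul_le_mul_of_nonneg_left (ciInf_le (hbdd x) z) (Real.rpow_pos_of_pos hx _).le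
      refine h3.trans ?_
      have h4 : ∀ u : ℝ, 0 < u → u ^ a * Ψ u z = w z / (z : ℝ) ^ t * (max u z) ^ a := by
        intro u hu
        have h5 : max u (z : ℝ) = u * max 1 (z / u) := by
          rw [mul_max_of_nonneg _ _ hu.le, mul_one, mul_div_cancel₀ _ hu.ne']
        rw [h5, Real.mul_rpow hu.le (by positivity)]
        simp only [hΨ]
        ring
      rw [h4 x hx, mul_comm (Ψ y z) _, h4 y hy]
      refine mul_le_mul_of_nonneg_left (Real.rpow_le_rpow ?_ (max_le_max hxy le_rfl) ha0.le) h1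
      exact hx.le.trans (le_max_left _ _)
    rwa [div_le_iff₀ h0, mul_comm (ψ y)] at h2
  have htop : Tendsto ψ (𝓝[>] 0) atTop := by
    rw [Filter.tendsto_atTop]
    intro K
    obtain ⟨x₁, hx₁, hx₂⟩ : ∃ x₁ > 0, ∀ x, 0 < x → x ≤ x₁ → max K 1 ≤ w x / x ^ t := by
      obtain ⟨b, hb, hb2⟩ := (mem_nhdsGT_iff_exists_Ioc_subset).1
        (hw.eventually (eventually_ge_atTop (max K 1)))
      exact ⟨b, hb, fun x h1 h2 => hb2 ⟨h1, h2⟩⟩
    have hK : (0 : ℝ) < max K 1 := lt_of_lt_of_le one_pos (le_max_right _ _)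
    set x₂ : ℝ := x₁ / (max K 1) ^ a⁻¹ with hx2
    have hx20 : 0 < x₂ := div_pos hx₁ (Real.rpow_pos_of_pos hK _)
    refine mem_nhdsGT_iff_exists_Ioc_subset.2 ⟨x₂, hx20, fun x hx => ?_⟩
    have hx0' : 0 < x := hx.1
    change K ≤ ψ x
    refine le_ciInf fun z => (le_max_left K 1).trans ?_
    by_cases hz : (z : ℝ) ≤ x₁
    · have h1 := hx₂ z z.2.1 hz
      have h2 := hmax x z
      calc max K 1 = max K 1 * 1 := (mul_one _).symm
        _ ≤ _ := mul_le_mul h1 h2 zero_le_one (hK.le.trans h1)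
    · push Not at hz
      have h1 := hx1 z z.2.1 z.2.2
      have h2 : max K 1 ≤ (max 1 ((z : ℝ) / x)) ^ a := by
        have h3 : (max K 1) ^ a⁻¹ ≤ max 1 ((z : ℝ) / x) := by
          refine le_trans ?_ (le_max_right _ _)
          rw [le_div_iff₀ hx0']
          have h4 : x ≤ x₂ := hx.2
          have h5 : 0 < (max K 1) ^ a⁻¹ := Real.rpow_pos_of_pos hK _
          calc (max K 1) ^ a⁻¹ * x ≤ (max K 1) ^ a⁻¹ * x₂ := mul_le_mul_of_nonneg_left h4 h5.le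
            _ = x₁ := by rw [hx2, mul_div_cancel₀ _ h5.ne']
            _ ≤ z := hz.le
        calc max K 1 = ((max K 1) ^ a⁻¹) ^ a := by
              rw [← Real.rpow_mul hK.le, inv_mul_cancel₀ ha0.ne', Real.rpow_one]
          _ ≤ _ := Real.rpow_le_rpow (Real.rpow_pos_of_pos hK _).le h3 ha0.le
      calc max K 1 = 1 * max K 1 := (one_mul _).symm
        _ ≤ _ := mul_le_mul h1 h2 hK.le (zero_le_one.trans h1)
  -- the minorant
  have hη0 : ∀ x, 0 < x → 0 < x ^ t * ψ x := fun x hx =>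
    mul_pos (Real.rpow_pos_of_pos hx _) (zero_lt_one.trans_le (hψ1 x))
  have hsplit : ∀ x, 0 < x → x ^ t * ψ x = x ^ a * (x ^ a * ψ x) := fun x hx => by
    rw [← mul_assoc, ← Real.rpow_add hx, ha, add_halves]
  have hηmono : ∀ x y, 0 < x → x ≤ y → x ^ t * ψ x ≤ y ^ t * ψ y := fun x y hx hxy => by
    have hy : 0 < y := hx.trans_le hxy
    rw [hsplit x hx, hsplit y hy]
    refine mul_le_mul (Real.rpow_le_rpow hx.le hxy ha0.le) (hmono x y hx hxy) ?_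
      (Real.rpow_pos_of_pos hy _).le
    exact mul_nonneg (Real.rpow_pos_of_pos hx _).le (zero_le_one.trans (hψ1 x))
  have hζm : ∀ x, 0 < x → ((x ^ t * ψ x) ^ (m : ℝ)⁻¹) ^ m = x ^ t * ψ x := fun x hx =>
    Real.rpow_inv_natCast_pow (hη0 x hx).le hmne
  refine ⟨x₀, fun x => (x ^ t * ψ x) ^ (m : ℝ)⁻¹, hx0, fun x hx => Real.rpow_pos_of_pos (hη0 x hx) _,
    fun x y hx hxy => Real.rpow_le_rpow (hη0 x hx).le (hηmono x y hx hxy) (by positivity),
    fun x y hx hxy => ?_, ?_, ?_, fun x hx hx' => ?_⟩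
  · have hy : 0 < y := hx.trans_le hxy
    have h1 : ∀ u : ℝ, 0 < u → (u ^ t * ψ u) ^ (m : ℝ)⁻¹ = u * (u ^ (t - m) * ψ u) ^ (m : ℝ)⁻¹ := by
      intro u hu
      have h2 : u ^ t * ψ u = u ^ (m : ℝ) * (u ^ (t - m) * ψ u) := by
        rw [← mul_assoc, ← Real.rpow_add hu]
        congr 2
        ring
      rw [h2, Real.mul_rpow (Real.rpow_pos_of_pos hu _).le
        (mul_nonneg (Real.rpow_pos_of_pos hu _).le (zero_le_one.trans (hψ1 u))), ← Real.rpow_mul hu.le,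
        mul_inv_cancel₀ hm0.ne', Real.rpow_one]
    change (y ^ t * ψ y) ^ (m : ℝ)⁻¹ * x ≤ (x ^ t * ψ x) ^ (m : ℝ)⁻¹ * y
    rw [h1 x hx, h1 y hy]
    have h3 : (y ^ (t - m) * ψ y) ^ (m : ℝ)⁻¹ ≤ (x ^ (t - m) * ψ x) ^ (m : ℝ)⁻¹ := by
      refine Real.rpow_le_rpow ?_ ?_ (by positivity)
      · exact mul_nonneg (Real.rpow_pos_of_pos hy _).le (zero_le_one.trans (hψ1 y))
      · refine mul_le_mul ?_ (hanti x y hx hxy) (zero_le_one.trans (hψ1 y))
          (Real.rpow_pos_of_pos hx _).le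
        exact Real.rpow_le_rpow_of_nonpos hx hxy (by linarith)
    have h4 : 0 < x * y := mul_pos hx hy
    nlinarith
  · have h1 : Tendsto (fun x : ℝ => x ^ a * (x₀ ^ a * ψ x₀)) (𝓝[>] 0) (𝓝 0) := by
      have h2 : Tendsto (fun x : ℝ => x ^ a) (𝓝[>] 0) (𝓝 0) := by
        have h3 := (Real.continuousAt_rpow_const 0 a (Or.inr ha0.le)).tendsto
        rw [Real.zero_rpow ha0.ne'] at h3
        exact h3.mono_left nhdsWithin_le_nhds
      have h4 := h2.mul_const (x₀ ^ a * ψ x₀)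
      rwa [zero_mul] at h4
    have h2 : Tendsto (fun x : ℝ => x ^ t * ψ x) (𝓝[>] 0) (𝓝 0) := by
      refine tendsto_of_tendsto_of_tendsto_of_le_of_le' tendsto_const_nhds h1 ?_ ?_
      · filter_upwards [self_mem_nhdsWithin] with x hx
        exact (hη0 x hx).le
      · filter_upwards [Ioc_mem_nhdsGT hx0] with x hx
        rw [hsplit x hx.1]
        exact mul_le_mul_of_nonneg_left (hmono x x₀ hx.1 hx.2) (Real.rpow_pos_of_pos hx.1 _).le
    have h3 := (Real.continuousAt_rpow_const 0 (m : ℝ)⁻¹ (Or.inr (by positivity))).tendsto.comp h2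
    rw [Real.zero_rpow (by positivity)] at h3
    exact h3
  · refine htop.congr' ?_
    filter_upwards [self_mem_nhdsWithin] with x hx
    have h1 : 0 < x ^ t := Real.rpow_pos_of_pos hx _
    rw [hζm x hx, mul_div_cancel_left₀ _ h1.ne']
  · change ((x ^ t * ψ x) ^ (m : ℝ)⁻¹) ^ m ≤ w x
    rw [hζm x hx]
    have h1 : 0 < x ^ t := Real.rpow_pos_of_pos hx _
    have h2 := hψle x hx hx'
    rwa [le_div_iff₀ h1, mul_comm] at h2

end Pool.Agent.MPca0fc2.WI
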