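import Pool.Agent.Lib.MP_ca0fc2_an.WI.D
import Pool.Agent.Lib.MP_ca0fc2_an.WI.G

/-! Ideals of bounded holomorphic functions: the function is small in comparison with the generators, but it is not in the
ideal; general gauge functions. -/

set_option autoImplicit false

open Metric Set Filter Topology

namespace Pool.Agent.MPca0fc2.WI

open Pool.Agent.Lib.MP_ca0fc2_an (SupportData)
open Pool.Agent.MPca0fc2.TB

variable {n N : ℕ}
variable {D : Set (En n)} {p : En n} {i₀ : Fin N} {β : En n → ℂ} {lam del ep A : ℕ → ℝ}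
  {P : ℕ → En n} {R r : ℕ → ℝ} {φ : ℕ → En n → ℂ} {g : ℕ → En n → En N} {c : ℕ → En N}

/-- The lower bound for the generators, and the upper bound for the function. -/
theorem Dat.lower (h : Dat D p i₀ β lam del ep A P R r φ g c) {mu : ℕ → ℝ} (hmu : ∀ k, 0 ≤ mu k)
    (hmu1 : ∀ k, mu k ≤ 1) {z : En n} (hz : z ∈ closure D) :
    ‖β z‖ ≤ 3 * ‖ff i₀ β lam φ g z‖ ∧ (‖gg mu φ z‖ ≤ 1 / 6 * (‖β z‖ / 4) ∨
      ∃ k, lam k * del k * ‖φ k z‖ ≤ 3 * ‖ff i₀ β lam φ g z‖ ∧ ‖φ k z‖ ≤ 3 / 2 ∧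
        ‖gg mu φ z‖ ≤ 1 / 6 * (mu k * ‖φ k z‖ + ‖β z‖ / 4)) := by
  set b : En N := β z • (EuclideanSpace.single i₀ (1 : ℂ) : En N) with hb
  have hbn : ‖b‖ = ‖β z‖ := by
    rw [hb, norm_smul, PiLp.norm_single, norm_one, mul_one]
  by_cases hex : ∃ k, z ∈ ball (P k) (R k)
  · obtain ⟨k, hk⟩ := hex
    obtain ⟨h1, h2⟩ := h.inn hmu hmu1 hz hk
    set F := ff i₀ β lam φ g z with hF
    have hL0 : 0 < lam k * del k := mul_pos (h.lam0 k) (h.del0 k)
    have hx := h.φin k z hz hk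
    have hG : ‖gg mu φ z‖ ≤ 1 / 6 * (mu k * ‖φ k z‖ + ‖β z‖ / 4) := by
      have h3 : 6 * ‖gg mu φ z‖ = ‖6 * gg mu φ z‖ := by
        rw [norm_mul]
        simp
      have h4 : ‖6 * gg mu φ z‖ ≤ ‖6 * gg mu φ z - Tg mu φ k z‖ + ‖Tg mu φ k z‖ := by
        have := norm_add_le (6 * gg mu φ z - Tg mu φ k z) (Tg mu φ k z)
        rwa [sub_add_cancel] at this
      rw [norm_Tg hmu] at h4
      linarith
    have key : ‖β z‖ ≤ 3 * ‖F‖ ∧ lam k * del k * ‖φ k z‖ ≤ 3 * ‖F‖ := by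
      by_cases hr : z ∈ ball (P k) (r k)
      · have h5 := h.φlow k z hz hr
        have h6 := (h.gb k z hz).1
        have h7 := h.sm k z hz hk
        have h8 := h.ep5 k
        have h9 : ‖Tf lam φ g k z‖ = lam k * ‖φ k z‖ * ‖g k z‖ := by
          rw [Tf, norm_smul, norm_mul, Complex.norm_real, Real.norm_of_nonneg (h.lam0 k).le]
        have h10 : lam k * (3 / 4) * del k ≤ ‖Tf lam φ g k z‖ := by
          rw [h9]
          have := h.lam0 k
          have := h.del0 k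
          gcongr
        have h11 : ‖Tf lam φ g k z‖ ≤ ‖F‖ + ‖b‖ + ‖F - b - Tf lam φ g k z‖ := by
          have h12 : Tf lam φ g k z = F - b - (F - b - Tf lam φ g k z) := by abel
          calc ‖Tf lam φ g k z‖ = ‖F - b - (F - b - Tf lam φ g k z)‖ := by rw [← h12]
            _ ≤ ‖F - b‖ + ‖F - b - Tf lam φ g k z‖ := norm_sub_le _ _
            _ ≤ _ := by
              have := norm_sub_le F b
              linarith
        rw [hbn] at h11
        have h13 : lam k * del k * ‖φ k z‖ ≤ lam k * del k * (3 / 2) :=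
          mul_le_mul_of_nonneg_left hx hL0.le
        constructor
        · linarith
        · linarith
      · have h5 := angle' (c := c k) (f := F) (i₀ := i₀) (h.ca k) (a := (lam k : ℂ) * φ k z)
          (b := β z) (g := g k z) (E := F - b - Tf lam φ g k z) (by
            rw [← hb]
            change F = b + Tf lam φ g k z + _
            abel) h1 ((h.goff k z hz hr).trans (by
            have := h.cl k
            linarith))
        refine ⟨h5.1, le_trans ?_ h5.2⟩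
        rw [norm_mul, Complex.norm_real, Real.norm_of_nonneg (h.lam0 k).le]
        have h6 := h.cl k
        have h7 : 0 ≤ lam k * ‖φ k z‖ := mul_nonneg (h.lam0 k).le (norm_nonneg _)
        calc lam k * del k * ‖φ k z‖ = lam k * ‖φ k z‖ * del k := by ring
          _ ≤ _ := mul_le_mul_of_nonneg_left h6 h7
    exact ⟨key.1, Or.inr ⟨k, key.2, hx, hG⟩⟩
  · push Not at hex
    obtain ⟨h1, h2⟩ := h.out hmu hmu1 hz hex
    set F := ff i₀ β lam φ g z with hF
    have h3 : ‖b‖ ≤ ‖F‖ + ‖F - b‖ := by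
      have := norm_sub_le F (F - b)
      rwa [sub_sub_cancel] at this
    rw [hbn] at h3
    have h4 : ‖β z‖ ≤ 3 * ‖F‖ := by
      have := norm_nonneg F
      have := norm_nonneg (β z)
      linarith
    exact ⟨h4, Or.inl h2⟩

/-- The bound of the generators. -/
theorem Dat.upper (h : Dat D p i₀ β lam del ep A P R r φ g c) {z : En n} (hz : z ∈ closure D) :
    ‖ff i₀ β lam φ g z‖ ≤ 3 := by
  set b : En N := β z • (EuclideanSpace.single i₀ (1 : ℂ) : En N) with hb
  have hbn : ‖b‖ = ‖β z‖ := by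
    rw [hb, norm_smul, PiLp.norm_single, norm_one, mul_one]
  have h1 := h.β1 z hz
  by_cases hex : ∃ k, z ∈ ball (P k) (R k)
  · obtain ⟨k, hk⟩ := hex
    have h2 := (h.inn (mu := fun _ => 0) (fun _ => le_rfl) (fun _ => zero_le_one) hz hk).1
    have h3 := h.norm_Tf k hz
    have h4 : lam k * ‖φ k z‖ ≤ 1 * (3 / 2) :=
      mul_le_mul (h.lam1 k) (h.φin k z hz hk) (norm_nonneg _) zero_le_one
    have h5 : ff i₀ β lam φ g z = (ff i₀ β lam φ g z - b - Tf lam φ g k z) + (b + Tf lam φ g k z) := by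
      abel
    rw [h5]
    refine (norm_add_le _ _).trans ?_
    have h6 := norm_add_le b (Tf lam φ g k z)
    linarith
  · push Not at hex
    have h2 := (h.out (mu := fun _ => 0) (fun _ => le_rfl) (fun _ => zero_le_one) hz hex).1
    have h5 : ff i₀ β lam φ g z = (ff i₀ β lam φ g z - b) + b := by abel
    rw [h5]
    refine (norm_add_le _ _).trans ?_
    linarith

/-- The inequality between the function and the generators, for a regular gauge function. -/
theorem Dat.gauge_ineq (h : Dat D p i₀ β lam del ep A P R r φ g c) {ζ : ℝ → ℝ}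
    (hζ0 : ∀ x, 0 < x → 0 < ζ x) (hζm : ∀ x y, 0 < x → x ≤ y → ζ x ≤ ζ y)
    (hζc : ∀ x y, 0 < x → x ≤ y → ζ y * x ≤ ζ x * y) (hζ1 : ∀ k, ζ (lam k * del k) ≤ 1)
    {z : En n} (hz : z ∈ closure D) (hne : z ≠ p) :
    0 < ‖ff i₀ β lam φ g z‖ ∧ ‖gg (fun k => ζ (lam k * del k)) φ z‖ ≤
      (1 + 1 / ζ 3) * ζ ‖ff i₀ β lam φ g z‖ := by
  have hL0 : ∀ k, 0 < lam k * del k := fun k => mul_pos (h.lam0 k) (h.del0 k)
  obtain ⟨h1, h2⟩ := h.lower (mu := fun k => ζ (lam k * del k)) (fun k => (hζ0 _ (hL0 k)).le) hζ1 hz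
  have h3 := h.upper hz
  set F : ℝ := ‖ff i₀ β lam φ g z‖ with hF
  have hβ : 0 < ‖β z‖ := norm_pos_iff.2 (h.β0 z hz hne)
  have hF0 : 0 < F := by linarith
  have hζF := hζ0 F hF0
  have hζ3 := hζ0 3 (by norm_num)
  refine ⟨hF0, ?_⟩
  have h4 : F ≤ 3 / ζ 3 * ζ F := by
    have h5 := hζc F 3 hF0 h3
    rw [div_mul_eq_mul_div, le_div_iff₀ hζ3]
    linarith
  have h5 : 1 / 6 * (‖β z‖ / 4) ≤ 1 / ζ 3 * ζ F := by
    have h6 : 3 / ζ 3 * ζ F = 3 * (1 / ζ 3 * ζ F) := by ring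
    rw [h6] at h4
    have h7 : 0 ≤ 1 / ζ 3 * ζ F := by positivity
    linarith
  rcases h2 with h2 | ⟨k, hk1, hk2, hk3⟩
  · refine h2.trans (h5.trans ?_)
    rw [add_mul, one_mul]
    linarith
  · refine hk3.trans ?_
    have h6 : ζ (lam k * del k) * ‖φ k z‖ ≤ 6 * ζ F := by
      rcases (norm_nonneg (φ k z)).eq_or_lt with h0 | h0
      · rw [← h0, mul_zero]
        positivity
      · set L := lam k * del k with hL
        set x := ‖φ k z‖ with hx
        have h7 : 0 < 2 / 3 * x * L := by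
          have := hL0 k
          positivity
        have h8 : 2 / 3 * x * L ≤ L := by
          have := hL0 k
          nlinarith
        have h9 : ζ L * (2 / 3 * x * L) ≤ ζ (2 / 3 * x * L) * L := hζc _ _ h7 h8
        have h10 : ζ L * (2 / 3 * x) ≤ ζ (2 / 3 * x * L) := by
          have h11 : ζ L * (2 / 3 * x) * L ≤ ζ (2 / 3 * x * L) * L := by
            rw [mul_assoc]
            exact h9
          exact le_of_mul_le_mul_right h11 (hL0 k)
        have h12 : ζ (2 / 3 * x * L) ≤ ζ (2 * F) := hζm _ _ h7 (by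
          have : 2 / 3 * x * L = 2 / 3 * (L * x) := by ring
          rw [this]
          linarith)
        have h13 : ζ (2 * F) * F ≤ ζ F * (2 * F) := hζc _ _ hF0 (by linarith)
        have h14 : ζ (2 * F) ≤ 2 * ζ F := by
          have h15 : ζ (2 * F) * F ≤ 2 * ζ F * F := by linarith
          exact le_of_mul_le_mul_right h15 hF0
        nlinarith
    rw [add_mul, one_mul]
    linarith

/-- The function is not in the ideal. -/
theorem Dat.no_sol (h : Dat D p i₀ β lam del ep A P R r φ g c) {m : ℕ} {mu : ℕ → ℝ}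
    (hμ0 : ∀ k, 0 < mu k) (hμ1 : ∀ k, mu k ≤ 1) (hsum : Summable mu) (hep : ∀ k, ep k ≤ mu k)
    (hlim : ∀ M : ℝ, 0 ≤ M → ∀ᶠ k in atTop, 2 * (3 / 2 * 12 ^ m * M * lam k * (mu k ^ m)⁻¹) ≤ A k)
    {ε : ℝ} (hε : 0 < ε) {H : En n → En N} {M : ℝ} (hM : 0 ≤ M)
    (hH : DifferentiableOn ℂ H (D ∩ ball p ε)) (hHb : ∀ z ∈ D ∩ ball p ε, ‖H z‖ ≤ M)
    (heq : ∀ z ∈ D ∩ ball p ε, ∑ j, ff i₀ β lam φ g z j * H z j = gg mu φ z ^ m) : False := by
  have hμ0' : ∀ k, 0 ≤ mu k := fun k => (hμ0 k).le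
  have hev : ∀ᶠ k in atTop, ball (P k) (R k) ⊆ ball p ε := by
    have h1 : ∀ᶠ k in atTop, dist (P k) p < ε / 2 := (Metric.tendsto_nhds.mp h.Pt) (ε / 2) (by positivity)
    have h2 : ∀ᶠ k in atTop, R k < ε / 2 := h.Rt.eventually_lt_const (by positivity)
    filter_upwards [h1, h2] with k h3 h4
    exact ball_subset_ball' (by linarith)
  obtain ⟨k, hk1, hk2⟩ := (hev.and (hlim M hM)).exists
  have hl := h.lam0 k
  have hd := h.del0 k
  have hμp : 0 < mu k := hμ0 k
  have hsub : D ∩ ball (P k) (r k) ⊆ D ∩ ball p ε := fun z hz =>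
    ⟨hz.1, hk1 (ball_subset_ball (h.rR k) hz.2)⟩
  have hφl : ∀ z ∈ D ∩ ball (P k) (r k), 3 / 4 ≤ ‖φ k z‖ := fun z hz =>
    h.φlow k z (subset_closure hz.1) hz.2
  have hbR : ∀ z ∈ D ∩ ball (P k) (r k), z ∈ ball (P k) (R k) := fun z hz =>
    ball_subset_ball (h.rR k) hz.2
  have hβ : ∀ z ∈ D ∩ ball (P k) (r k), ‖β z‖ ≤ ep k := fun z hz =>
    h.sm k z (subset_closure hz.1) (hbR z hz)
  have ha0 : ∀ z ∈ D ∩ ball (P k) (r k), (lam k : ℂ) * φ k z ≠ 0 := by
    intro z hz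
    refine mul_ne_zero (by exact_mod_cast hl.ne') fun h0 => ?_
    have := hφl z hz
    rw [h0, norm_zero] at this
    norm_num at this
  have han : ∀ z ∈ D ∩ ball (P k) (r k), lam k * (3 / 4) ≤ ‖(lam k : ℂ) * φ k z‖ ∧
      ‖(lam k : ℂ) * φ k z‖ ≤ lam k * (3 / 2) := by
    intro z hz
    rw [norm_mul, Complex.norm_real, Real.norm_of_nonneg hl.le]
    exact ⟨mul_le_mul_of_nonneg_left (hφl z hz) hl.le,
      mul_le_mul_of_nonneg_left (h.φb k (subset_closure hz.1)) hl.le⟩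
  have hgl : ∀ z ∈ D ∩ ball (P k) (r k), mu k / 12 ≤ ‖gg mu φ z‖ := by
    intro z hz
    have h1 := (h.inn (i₀ := i₀) hμ0' hμ1 (subset_closure hz.1) (hbR z hz)).2
    have h2 : ‖Tg mu φ k z‖ ≤ ‖6 * gg mu φ z‖ + ‖6 * gg mu φ z - Tg mu φ k z‖ := by
      have := norm_sub_le (6 * gg mu φ z) (6 * gg mu φ z - Tg mu φ k z)
      rwa [sub_sub_cancel] at this
    rw [norm_Tg hμ0'] at h2
    have h3 : ‖6 * gg mu φ z‖ = 6 * ‖gg mu φ z‖ := by
      rw [norm_mul]
      simp
    rw [h3] at h2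
    have h4 := hβ z hz
    have h5 := hep k
    have h6 : mu k * (3 / 4) ≤ mu k * ‖φ k z‖ := mul_le_mul_of_nonneg_left (hφl z hz) (hμ0' k)
    linarith
  have hgm : ∀ z ∈ D ∩ ball (P k) (r k), mu k ^ m / 12 ^ m ≤ ‖gg mu φ z ^ m‖ := by
    intro z hz
    rw [norm_pow, ← div_pow]
    exact pow_le_pow_left₀ (by positivity) (hgl z hz) m
  have hLs : 0 < mu k ^ m := by positivity
  have hg0 : ∀ z ∈ D ∩ ball (P k) (r k), gg mu φ z ^ m ≠ 0 := by
    intro z hz h0
    have h1 := hgm z hz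
    rw [h0, norm_zero] at h1
    have : 0 < mu k ^ m / 12 ^ m := by positivity
    linarith
  refine h.rob k (fun z => ((lam k : ℂ) * φ k z)⁻¹ • ff i₀ β lam φ g z)
    (3 / 2 * 12 ^ m * M * lam k * (mu k ^ m)⁻¹) (5 / 3 * (ep k / lam k)) (by positivity) hk2 ?_ ?_ ?_
  · -- the errors
    by_cases he : 0 ≤ ep k
    · refine le_trans (mul_le_mul_of_nonneg_left (b := 3 / 2 * 12 ^ m * M * lam k * (mu k ^ m)⁻¹)
        (c := A k / 2) ?_ (by positivity)) (h.epA k)
      linarith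
    · push Not at he
      have h1 : 5 / 3 * (ep k / lam k) ≤ 0 := by
        have := div_nonpos_of_nonpos_of_nonneg he.le hl.le
        linarith
      have h2 : 0 ≤ 3 / 2 * 12 ^ m * M * lam k * (mu k ^ m)⁻¹ := by positivity
      have := mul_nonpos_of_nonpos_of_nonneg h1 h2
      linarith
  · intro z hzD hzb
    have hz : z ∈ D ∩ ball (P k) (r k) := ⟨hzD, hzb⟩
    have h1 := (h.inn (i₀ := i₀) hμ0' hμ1 (subset_closure hz.1) (hbR z hz)).1
    have h2 : ((lam k : ℂ) * φ k z)⁻¹ • ff i₀ β lam φ g z - g k z =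
        ((lam k : ℂ) * φ k z)⁻¹ • (ff i₀ β lam φ g z - Tf lam φ g k z) := by
      rw [smul_sub, Tf, smul_smul, inv_mul_cancel₀ (ha0 z hz), one_smul]
    change ‖((lam k : ℂ) * φ k z)⁻¹ • ff i₀ β lam φ g z - g k z‖ ≤ _
    rw [h2, norm_smul, norm_inv]
    have h3 : ‖ff i₀ β lam φ g z - Tf lam φ g k z‖ ≤ 5 / 4 * ep k := by
      have h4 : ff i₀ β lam φ g z - Tf lam φ g k z =
          (ff i₀ β lam φ g z - β z • (EuclideanSpace.single i₀ (1 : ℂ) : En N) - Tf lam φ g k z) +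
            β z • (EuclideanSpace.single i₀ (1 : ℂ) : En N) := by abel
      rw [h4]
      refine (norm_add_le _ _).trans ?_
      rw [norm_smul, PiLp.norm_single, norm_one, mul_one]
      have := hβ z hz
      linarith
    have h5 : ‖(lam k : ℂ) * φ k z‖⁻¹ ≤ (lam k * (3 / 4))⁻¹ :=
      inv_anti₀ (by positivity) (han z hz).1
    have he : 0 ≤ ep k := (norm_nonneg _).trans (hβ z hz)
    calc ‖(lam k : ℂ) * φ k z‖⁻¹ * ‖ff i₀ β lam φ g z - Tf lam φ g k z‖
        ≤ (lam k * (3 / 4))⁻¹ * (5 / 4 * ep k) :=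
          mul_le_mul h5 h3 (norm_nonneg _) (by positivity)
      _ = 5 / 3 * (ep k / lam k) := by
          field_simp
  · refine ⟨fun z => ((lam k : ℂ) * φ k z * (gg mu φ z ^ m)⁻¹) • H z, ?_, fun z hz => ?_, fun z hz => ?_⟩
    · have h1 : DifferentiableOn ℂ (gg mu φ) (D ∩ ball (P k) (r k)) :=
        (h.gg_reg hμ0' hsum).1.mono inter_subset_left
      exact ((((h.φd k).mono inter_subset_left).const_mul _).mul ((h1.pow m).inv hg0)).smul
        (hH.mono hsub)
    · rw [norm_smul, norm_mul, norm_inv]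
      have h1 : ‖gg mu φ z ^ m‖⁻¹ ≤ (mu k ^ m / 12 ^ m)⁻¹ := inv_anti₀ (by positivity) (hgm z hz)
      have h2 := hHb z (hsub hz)
      calc ‖(lam k : ℂ) * φ k z‖ * ‖gg mu φ z ^ m‖⁻¹ * ‖H z‖
          ≤ (lam k * (3 / 2)) * (mu k ^ m / 12 ^ m)⁻¹ * M :=
            mul_le_mul (mul_le_mul (han z hz).2 h1 (by positivity) (by positivity)) h2
              (norm_nonneg _) (by positivity)
        _ = 3 / 2 * 12 ^ m * M * lam k * (mu k ^ m)⁻¹ := by
            rw [inv_div]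
            field_simp
    · have h1 : ∀ j, (((lam k : ℂ) * φ k z)⁻¹ • ff i₀ β lam φ g z) j *
          (((lam k : ℂ) * φ k z * (gg mu φ z ^ m)⁻¹) • H z) j =
          (gg mu φ z ^ m)⁻¹ * (ff i₀ β lam φ g z j * H z j) := by
        intro j
        simp only [PiLp.smul_apply, smul_eq_mul]
        have hring : ∀ a b w x y : ℂ, b * x * (a * w * y) = b * a * (w * (x * y)) := by
          intro a b w x y
          ring
        rw [hring, inv_mul_cancel₀ (ha0 z hz), one_mul]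
      rw [Finset.sum_congr rfl fun j _ => h1 j, ← Finset.mul_sum, heq z (hsub hz)]
      exact inv_mul_cancel₀ (hg0 z hz)

end Pool.Agent.MPca0fc2.WI
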