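import Pool.Agent.Lib.MP_ca0fc2_an.WI.F

/-! Ideals of bounded holomorphic functions near a boundary point of a strictly pseudoconvex domain. -/

set_option autoImplicit false

open Metric Set Filter Topology

namespace Pool.Agent.MPca0fc2.WI

open Pool.Agent.Lib.MP_ca0fc2_an (SupportData)
open Pool.Agent.MPca0fc2.TB

variable {n N : ℕ}

/-- The theorem for exponents `m ≥ t`. -/
theorem wolff_aux (hn : 2 ≤ n) (hN : 2 ≤ N) {D U : Set (En n)} {ρ : En n → ℝ}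
    {h : En n → En n → Fin n → ℂ} {c : ℝ} (hs : SupportData D U ρ h c) {p : En n}
    (hp : p ∈ frontier D) {t : ℝ} (ht0 : 0 < t) (ht : Adm n N t) {w : ℝ → ℝ}
    (hw : Tendsto (fun x => w x / x ^ t) (𝓝[>] 0) atTop) {m : ℕ} (hm : t ≤ m) :
    ∃ (f : En n → En N) (g : En n → ℂ), (DifferentiableOn ℂ f D ∧ ContinuousOn f (closure D)) ∧
      (DifferentiableOn ℂ g D ∧ ContinuousOn g (closure D)) ∧
      (∀ z ∈ closure D, z ≠ p → f z ≠ 0 ∧ ‖g z‖ ^ m ≤ w ‖f z‖) ∧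
      ∀ r > 0, ∀ (H : En n → En N) (M : ℝ), DifferentiableOn ℂ H (D ∩ ball p r) →
        (∀ z ∈ D ∩ ball p r, ‖H z‖ ≤ M) → ¬ ∀ z ∈ D ∩ ball p r, ∑ j, f z j * H z j = g z ^ m := by
  obtain ⟨x₀, ζ, hx0, hζ0, hζm, hζc, hζt, hζtop, hζw⟩ := gauge ht0 hw hm
  obtain ⟨c₀, hc0, hc1, hdat⟩ := ball_dat (n := n) (N := N) hn hN ht
  set lam : ℕ → ℝ := fun k => (1 / 2) ^ k with hlam
  have hl0 : ∀ k, 0 < lam k := fun k => by positivity
  have hl1 : ∀ k, lam k ≤ 1 := fun k => pow_le_one₀ (by norm_num) (by norm_num)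
  have hls : Summable lam := summable_geometric_of_lt_one (by norm_num) (by norm_num)
  have hdel : ∀ k : ℕ, ∃ δ, 0 < δ ∧ δ ≤ c₀ ∧ ζ (lam k * δ) ≤ lam k ∧
      (k + 1) * lam k ^ (1 - t) ≤ ζ (lam k * δ) ^ m / (lam k * δ) ^ t := by
    intro k
    have h1 : ∀ᶠ x in 𝓝[>] (0 : ℝ), ζ x < lam k := hζt.eventually (gt_mem_nhds (hl0 k))
    have h2 := hζtop.eventually (eventually_ge_atTop ((k + 1) * lam k ^ (1 - t)))
    have h3 : ∀ᶠ x in 𝓝[>] (0 : ℝ), x ∈ Ioc 0 (lam k * c₀) :=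
      Ioc_mem_nhdsGT (mul_pos (hl0 k) hc0)
    obtain ⟨x, h4, h5, h6⟩ := (h1.and (h2.and h3)).exists
    have h7 : lam k * (x / lam k) = x := mul_div_cancel₀ _ (hl0 k).ne'
    refine ⟨x / lam k, div_pos h6.1 (hl0 k), ?_, ?_, ?_⟩
    · rw [div_le_iff₀ (hl0 k), mul_comm]
      exact h6.2
    · rw [h7]
      exact h4.le
    · rw [h7]
      exact h5
  choose del hd0 hdc hζl hζb using hdel
  have hd1 : ∀ k, del k ≤ 1 := fun k => (hdc k).trans hc1
  have hL0 : ∀ k, 0 < lam k * del k := fun k => mul_pos (hl0 k) (hd0 k)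
  set mu : ℕ → ℝ := fun k => ζ (lam k * del k) with hmu
  have hmu0 : ∀ k, 0 < mu k := fun k => hζ0 _ (hL0 k)
  have hmu1 : ∀ k, mu k ≤ 1 := fun k => (hζl k).trans (hl1 k)
  have hmus : Summable mu := Summable.of_nonneg_of_le (fun k => (hmu0 k).le) hζl hls
  set ep : ℕ → ℝ := fun k => min (min (lam k * del k / 5) (lam k * del k ^ t / 2)) (mu k) with hep
  have hep0 : ∀ k, 0 < ep k := fun k => by
    have h1 := hl0 k
    have h2 := hd0 k
    have h3 : 0 < del k ^ t := Real.rpow_pos_of_pos h2 _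
    exact lt_min (lt_min (by positivity) (by positivity)) (hmu0 k)
  set A : ℕ → ℝ := fun k => c₀ * del k ^ (-t) with hA
  have hA0 : ∀ k, 0 < A k := fun k => mul_pos hc0 (Real.rpow_pos_of_pos (hd0 k) _)
  set i₀ : Fin N := ⟨0, by omega⟩ with hi₀
  have hi : i₀ ≠ ⟨1, by omega⟩ := by
    intro e
    have := congrArg Fin.val e
    simp [hi₀] at this
  obtain ⟨β, hβd, hβc, hβp, hβ1, hβ0⟩ := base hs hp
  obtain ⟨P, R, hPf, hR0, hPt, hRt, hPβ, hdis, hsml⟩ := choose_seq (by omega) hs hp hβc hβp hβ0 hep0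
  have hφ := fun k => peak_fun hs (hPf k) hβd hβc (hPβ k) (hR0 k) (fun z hz hb => (hsml k z hz hb).2)
    (show (0 : ℝ) < (1 / 2) ^ (k + 3) by positivity)
  choose φ r hφd hφc hφoff hφin hr0 hrR hφlow using hφ
  have hloc := fun k => locDat_of hs (hPf k) hi (hdat (del k) (hd0 k) (hdc k)) (r k) (hr0 k)
    (del k / 10) (by have := hd0 k; positivity)
  choose g cc hgd hgc hgb hcl hcu hca hgoff hrob using hloc
  have hD : Dat D p i₀ β lam del ep A P R r φ g cc := by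
    refine ⟨(support_bdry hs).1, hβd, hβc, hβ1, hβ0, hl0, hl1, hd0, hd1, hls,
      fun k => (min_le_left _ _).trans (min_le_left _ _), fun k => ?_, hdis, hPt, hRt,
      fun k z hz hb => (hsml k z hz hb).1, hφd, hφc, hφoff, hφin, hr0, hrR, hφlow, hgd, hgc, hgb, hcl,
      hca, hgoff, hrob⟩
    have h1 : ep k / lam k ≤ del k ^ t / 2 := by
      rw [div_le_iff₀ (hl0 k)]
      refine ((min_le_left _ _).trans (min_le_right _ _)).trans (le_of_eq ?_)
      ring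
    have h2 : del k ^ t * del k ^ (-t) = 1 := by
      rw [← Real.rpow_add (hd0 k)]
      simp
    have h3 : 0 < del k ^ (-t) := Real.rpow_pos_of_pos (hd0 k) _
    calc 5 / 3 * (ep k / lam k) * (A k / 2) ≤ 5 / 3 * (del k ^ t / 2) * (A k / 2) := by
          have := hA0 k
          gcongr
      _ = 5 / 12 * c₀ * (del k ^ t * del k ^ (-t)) := by
          simp only [hA]
          ring
      _ = 5 / 12 * c₀ := by rw [h2, mul_one]
      _ ≤ 1 / 2 := by linarith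
  have hlim : ∀ M : ℝ, 0 ≤ M → ∀ᶠ k in atTop,
      2 * (3 / 2 * 12 ^ m * M * lam k * (mu k ^ m)⁻¹) ≤ A k := by
    intro M hM
    filter_upwards [eventually_ge_atTop ⌈3 * 12 ^ m * M / c₀⌉₊] with k hk
    have h1 : 3 * 12 ^ m * M / c₀ ≤ k := (Nat.le_ceil _).trans (by exact_mod_cast hk)
    have h2 : 3 * 12 ^ m * M ≤ c₀ * (k + 1) := by
      rw [div_le_iff₀ hc0] at h1
      nlinarith
    have h3 : 0 < mu k ^ m := pow_pos (hmu0 k) m
    have h4 : 0 < del k ^ t := Real.rpow_pos_of_pos (hd0 k) _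
    have h5 : 0 < lam k ^ t := Real.rpow_pos_of_pos (hl0 k) _
    have h6 := hζb k
    have h7 : lam k ^ (1 - t) = lam k / lam k ^ t := by
      rw [Real.rpow_sub (hl0 k), Real.rpow_one]
    have h8 : (k + 1) * lam k * del k ^ t ≤ mu k ^ m := by
      rw [Real.mul_rpow (hl0 k).le (hd0 k).le, h7, le_div_iff₀ (by positivity)] at h6
      have h9 : (k + 1) * (lam k / lam k ^ t) * (lam k ^ t * del k ^ t) =
          (k + 1) * lam k * del k ^ t := by
        field_simp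
      rw [h9] at h6
      exact h6
    have h10 : A k = c₀ / del k ^ t := by
      simp only [hA]
      rw [Real.rpow_neg (hd0 k).le, div_eq_mul_inv]
    have h11 : 2 * (3 / 2 * 12 ^ m * M * lam k * (mu k ^ m)⁻¹) = 3 * 12 ^ m * M * lam k / mu k ^ m := by
      rw [div_eq_mul_inv]
      ring
    rw [h10, h11, div_le_div_iff₀ h3 h4]
    have h12 : 3 * 12 ^ m * M * lam k * del k ^ t ≤ c₀ * (k + 1) * (lam k * del k ^ t) := by
      have h13 : 0 ≤ lam k * del k ^ t := mul_nonneg (hl0 k).le h4.le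
      calc 3 * 12 ^ m * M * lam k * del k ^ t = 3 * 12 ^ m * M * (lam k * del k ^ t) := by ring
        _ ≤ _ := mul_le_mul_of_nonneg_right h2 h13
    calc 3 * 12 ^ m * M * lam k * del k ^ t ≤ c₀ * (k + 1) * (lam k * del k ^ t) := h12
      _ = c₀ * ((k + 1) * lam k * del k ^ t) := by ring
      _ ≤ c₀ * mu k ^ m := mul_le_mul_of_nonneg_left h8 hc0.le
  -- the scaling
  set C : ℝ := 1 + 1 / ζ 3 with hC
  have hζ3 := hζ0 3 (by norm_num)
  have hC0 : 0 < C := by positivity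
  set a : ℝ := min 1 (x₀ / 3) with ha
  have ha0 : 0 < a := lt_min one_pos (by positivity)
  have ha1 : a ≤ 1 := min_le_left _ _
  have ha3 : a * 3 ≤ x₀ := by
    have := min_le_right 1 (x₀ / 3)
    linarith
  set b : ℝ := a / C with hb
  have hb0 : 0 < b := div_pos ha0 hC0
  have han : ‖(a : ℂ)‖ = a := by rw [Complex.norm_real, Real.norm_of_nonneg ha0.le]
  have hbn : ‖(b : ℂ)‖ = b := by rw [Complex.norm_real, Real.norm_of_nonneg hb0.le]
  obtain ⟨hf1, hf2⟩ := hD.ff_reg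
  obtain ⟨hg1, hg2⟩ := hD.gg_reg (fun k => (hmu0 k).le) hmus
  refine ⟨fun z => (a : ℂ) • ff i₀ β lam φ g z, fun z => (b : ℂ) * gg mu φ z,
    ⟨hf1.fun_const_smul _, ContinuousOn.fun_smul continuousOn_const hf2⟩,
    ⟨hg1.const_mul _, continuousOn_const.mul hg2⟩, fun z hz hne => ?_, ?_⟩
  · obtain ⟨h1, h2⟩ := hD.gauge_ineq hζ0 hζm hζc hmu1 hz hne
    have h3 := hD.upper hz
    set F : ℝ := ‖ff i₀ β lam φ g z‖ with hF
    have hn1 : ‖(a : ℂ) • ff i₀ β lam φ g z‖ = a * F := by rw [norm_smul, han]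
    have haF : 0 < a * F := mul_pos ha0 h1
    constructor
    · change (a : ℂ) • ff i₀ β lam φ g z ≠ 0
      rw [← norm_pos_iff, hn1]
      exact haF
    · change ‖(b : ℂ) * gg mu φ z‖ ^ m ≤ w ‖(a : ℂ) • ff i₀ β lam φ g z‖
      rw [hn1, norm_mul, hbn]
      have h4 : b * ‖gg mu φ z‖ ≤ ζ (a * F) := by
        have h5 : b * ‖gg mu φ z‖ ≤ b * (C * ζ F) := mul_le_mul_of_nonneg_left h2 hb0.le
        have h6 : b * (C * ζ F) = a * ζ F := by
          rw [hb]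
          field_simp
        have h7 : ζ F * (a * F) ≤ ζ (a * F) * F := hζc _ _ haF (by
          calc a * F ≤ 1 * F := mul_le_mul_of_nonneg_right ha1 h1.le
            _ = F := one_mul F)
        have h8 : a * ζ F ≤ ζ (a * F) := by
          have h9 : a * ζ F * F ≤ ζ (a * F) * F := by linarith
          exact le_of_mul_le_mul_right h9 h1
        linarith
      refine (pow_le_pow_left₀ (by positivity) h4 m).trans (hζw _ haF ?_)
      calc a * F ≤ a * 3 := mul_le_mul_of_nonneg_left h3 ha0.le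
        _ ≤ x₀ := ha3
  · intro ε hε H M hH hHb heq
    have hbm : (b : ℂ) ^ m ≠ 0 := pow_ne_zero _ (by exact_mod_cast hb0.ne')
    refine hD.no_sol (m := m) hmu0 hmu1 hmus (fun k => min_le_right _ _) hlim hε
      (H := fun z => ((a : ℂ) * ((b : ℂ) ^ m)⁻¹) • H z) (M := a * (b ^ m)⁻¹ * max M 0) (by positivity)
      (hH.fun_const_smul _) (fun z hz => ?_) (fun z hz => ?_)
    · rw [norm_smul, norm_mul, norm_inv, norm_pow, han, hbn]
      exact mul_le_mul_of_nonneg_left ((hHb z hz).trans (le_max_left _ _)) (by positivity)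
    · have h1 := heq z hz
      have h2 : ∀ j, ff i₀ β lam φ g z j * (((a : ℂ) * ((b : ℂ) ^ m)⁻¹) • H z) j =
          ((b : ℂ) ^ m)⁻¹ * (((a : ℂ) • ff i₀ β lam φ g z) j * H z j) := by
        intro j
        simp only [PiLp.smul_apply, smul_eq_mul]
        ring
      rw [Finset.sum_congr rfl fun j _ => h2 j, ← Finset.mul_sum]
      have h3 : ∑ j, ((a : ℂ) • ff i₀ β lam φ g z) j * H z j = ((b : ℂ) * gg mu φ z) ^ m := h1
      rw [h3, mul_pow, ← mul_assoc, inv_mul_cancel₀ hbm, one_mul]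

/-- Ideals of bounded holomorphic functions near a boundary point of a strictly pseudoconvex domain. -/
theorem wolff (hn : 2 ≤ n) (hN : 2 ≤ N) {D U : Set (En n)} {ρ : En n → ℝ}
    {h : En n → En n → Fin n → ℂ} {c : ℝ} (hs : SupportData D U ρ h c) {p : En n}
    (hp : p ∈ frontier D) {t : ℝ} (ht0 : 0 < t) (ht : Adm n N t) {w : ℝ → ℝ}
    (hw : Tendsto (fun x => w x / x ^ t) (𝓝[>] 0) atTop) {m : ℕ} (hm : 1 ≤ m) :
    ∃ (f : En n → En N) (g : En n → ℂ), (DifferentiableOn ℂ f D ∧ ContinuousOn f (closure D)) ∧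
      (DifferentiableOn ℂ g D ∧ ContinuousOn g (closure D)) ∧
      (∀ z ∈ closure D, z ≠ p → f z ≠ 0 ∧ ‖g z‖ ^ m ≤ w ‖f z‖) ∧
      ∀ r > 0, ∀ (H : En n → En N) (M : ℝ), DifferentiableOn ℂ H (D ∩ ball p r) →
        (∀ z ∈ D ∩ ball p r, ‖H z‖ ≤ M) → ¬ ∀ z ∈ D ∩ ball p r, ∑ j, f z j * H z j = g z ^ m := by
  have hk : t ≤ ((⌈t⌉₊ * m : ℕ) : ℝ) := by
    have h1 : t ≤ (⌈t⌉₊ : ℝ) := Nat.le_ceil t
    have h2 : (1 : ℝ) ≤ m := by exact_mod_cast hm
    have h3 : (0 : ℝ) ≤ (⌈t⌉₊ : ℝ) := Nat.cast_nonneg _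
    push_cast
    nlinarith
  obtain ⟨f, g, hf, hg, hfg, hno⟩ := wolff_aux hn hN hs hp ht0 ht hw hk
  refine ⟨f, fun z => g z ^ ⌈t⌉₊, hf, ⟨hg.1.pow _, hg.2.pow _⟩, fun z hz hne => ?_, fun r hr H M hH hHb heq => ?_⟩
  · obtain ⟨h1, h2⟩ := hfg z hz hne
    refine ⟨h1, ?_⟩
    rw [norm_pow, ← pow_mul]
    exact h2
  · refine hno r hr H M hH hHb fun z hz => ?_
    rw [heq z hz, ← pow_mul]

end Pool.Agent.MPca0fc2.WI
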